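import Mathlib

/-!
# Counting exponent vectors in the lexicographic order
-/

open MvPolynomial

namespace Pool.Agent.H294R3

/-- the vectors in `ℕ ^ k` with sum at most `d` -/
def Bx (k d : ℕ) : Set (Fin k → ℕ) := {a | ∑ i, a i ≤ d}

theorem mem_Bx {k d : ℕ} {a : Fin k → ℕ} : a ∈ Bx k d ↔ ∑ i, a i ≤ d := Iff.rfl

theorem Bx_finite (k d : ℕ) : (Bx k d).Finite := by
  refine (Set.Finite.pi' (t := fun _ : Fin k => Set.Iic d) fun _ => Set.finite_Iic d).subset ?_
  intro a ha i
  have := Finset.single_le_sum (f := a) (fun j _ => Nat.zero_le _) (Finset.mem_univ i)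
  exact this.trans ha

/-- the number of vectors in `ℕ ^ k` with sum at most `d` which are lexicographically at least `α` -/
noncomputable def Cnt {k : ℕ} (α : Fin k → ℕ) (d : ℕ) : ℕ :=
  {a : Fin k → ℕ | ∑ i, a i ≤ d ∧ toLex α ≤ toLex a}.ncard

theorem Cnt_finite {k : ℕ} (α : Fin k → ℕ) (d : ℕ) :
    {a : Fin k → ℕ | ∑ i, a i ≤ d ∧ toLex α ≤ toLex a}.Finite :=
  (Bx_finite k d).subset fun _ h => h.1

theorem lex_cons_le {k : ℕ} (x y : ℕ) (a b : Fin k → ℕ) :
    toLex (Fin.cons x a : Fin (k + 1) → ℕ) ≤ toLex (Fin.cons y b : Fin (k + 1) → ℕ) ↔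
      x < y ∨ (x = y ∧ toLex a ≤ toLex b) := by
  have h1 : toLex (Fin.cons x a : Fin (k + 1) → ℕ) < toLex (Fin.cons y b : Fin (k + 1) → ℕ) ↔
      x < y ∨ (x = y ∧ toLex a < toLex b) :=
    Fin.pi_lex_lt_cons_cons (α := fun _ => ℕ) (s := fun {_} => (· < ·))
  have h2 : toLex (Fin.cons x a : Fin (k + 1) → ℕ) = toLex (Fin.cons y b : Fin (k + 1) → ℕ) ↔
      (x = y ∧ toLex a = toLex b) := by
    rw [toLex_inj, toLex_inj]
    exact Fin.cons_inj (α := fun _ => ℕ)
  rw [le_iff_lt_or_eq, le_iff_lt_or_eq]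
  exact (or_congr h1 h2).trans (by tauto)

theorem sum_cons' {k : ℕ} (x : ℕ) (a : Fin k → ℕ) :
    ∑ i, (Fin.cons x a : Fin (k + 1) → ℕ) i = x + ∑ i, a i := Fin.sum_cons x a

/-- shifting the first coordinate -/
theorem Cnt_shift {k : ℕ} (x g d : ℕ) (β : Fin k → ℕ) (hx : x ≤ g) (hg : g ≤ d) :
    Cnt (Fin.cons 0 β : Fin (k + 1) → ℕ) (d - g) ≤ Cnt (Fin.cons x β : Fin (k + 1) → ℕ) d := by
  refine Set.ncard_le_ncard_of_injOn (fun a => Fin.cons (a 0 + g) (Fin.tail a)) ?_ ?_
    (Cnt_finite _ _)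
  · intro a ha
    obtain ⟨h1, h2⟩ := ha
    rw [← Fin.cons_self_tail a] at h1 h2
    rw [sum_cons'] at h1
    rw [lex_cons_le] at h2
    refine ⟨?_, ?_⟩
    · rw [sum_cons']
      omega
    · rw [lex_cons_le]
      rcases h2 with h2 | ⟨h2, h3⟩
      · left; omega
      · rcases lt_or_eq_of_le hx with h4 | h4
        · left; omega
        · right; exact ⟨by omega, h3⟩
  · intro a _ b _ hab
    have h1 := (Fin.cons_inj (α := fun _ => ℕ)).1 hab
    rw [← Fin.cons_self_tail a, ← Fin.cons_self_tail b, h1.2]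
    congr 1
    omega

/-- the recursion in the number of variables -/
theorem Cnt_cons_zero {k : ℕ} (d : ℕ) (β : Fin k → ℕ) :
    Cnt (Fin.cons 0 β : Fin (k + 1) → ℕ) d + (Bx k d).ncard =
      Cnt β d + (Bx (k + 1) d).ncard := by
  have hinj : Function.Injective fun b : Fin k → ℕ => (Fin.cons 0 b : Fin (k + 1) → ℕ) :=
    fun b c h => ((Fin.cons_inj (α := fun _ => ℕ)).1 h).2
  have key : ∀ p : (Fin k → ℕ) → Prop,
      {a : Fin (k + 1) → ℕ | ∑ i, a i ≤ d ∧ (0 < a 0 ∨ p (Fin.tail a))}.ncard =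
        {a : Fin (k + 1) → ℕ | ∑ i, a i ≤ d ∧ 0 < a 0}.ncard +
          {b : Fin k → ℕ | ∑ i, b i ≤ d ∧ p b}.ncard := by
    intro p
    have h1 : {a : Fin (k + 1) → ℕ | ∑ i, a i ≤ d ∧ (0 < a 0 ∨ p (Fin.tail a))} =
        {a : Fin (k + 1) → ℕ | ∑ i, a i ≤ d ∧ 0 < a 0} ∪
          (fun b : Fin k → ℕ => (Fin.cons 0 b : Fin (k + 1) → ℕ)) ''
            {b : Fin k → ℕ | ∑ i, b i ≤ d ∧ p b} := by
      ext a
      constructor
      · rintro ⟨h1, h2⟩
        rcases Nat.eq_zero_or_pos (a 0) with h3 | h3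
        · right
          refine ⟨Fin.tail a, ⟨?_, ?_⟩, ?_⟩
          · rw [← Fin.cons_self_tail a, sum_cons'] at h1
            omega
          · rcases h2 with h2 | h2
            · omega
            · exact h2
          · change Fin.cons 0 (Fin.tail a) = a
            rw [← h3]
            exact Fin.cons_self_tail a
        · left; exact ⟨h1, h3⟩
      · rintro (⟨h1, h2⟩ | ⟨b, hb, rfl⟩)
        · exact ⟨h1, Or.inl h2⟩
        · refine ⟨?_, Or.inr ?_⟩
          · change ∑ i, (Fin.cons 0 b : Fin (k + 1) → ℕ) i ≤ d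
            rw [sum_cons']
            have := hb.1
            omega
          · exact hb.2
    rw [h1, Set.ncard_union_eq (by
      rw [Set.disjoint_left]
      rintro a ha ⟨b, -, rfl⟩
      exact absurd ha.2 (lt_irrefl 0)) ((Bx_finite (k + 1) d).subset fun _ h => h.1)
      (((Bx_finite k d).subset fun _ h => h.1).image _), Set.ncard_image_of_injective _ hinj]
  have h2 := key fun _ => True
  simp only [or_true, and_true] at h2
  have h3 : Cnt (Fin.cons 0 β : Fin (k + 1) → ℕ) d =
      {a : Fin (k + 1) → ℕ | ∑ i, a i ≤ d ∧ 0 < a 0}.ncard + Cnt β d := by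
    refine Eq.trans ?_ (key fun b => toLex β ≤ toLex b)
    unfold Cnt
    congr 1
    ext a
    refine and_congr_right fun _ => ?_
    have h5 := lex_cons_le 0 (a 0) β (Fin.tail a)
    rw [Fin.cons_self_tail] at h5
    rw [h5]
    constructor
    · rintro (h | ⟨-, h⟩)
      · exact Or.inl h
      · exact Or.inr h
    · rintro (h | h)
      · exact Or.inl h
      · rcases Nat.eq_zero_or_pos (a 0) with h4 | h4
        · exact Or.inr ⟨h4.symm, h⟩
        · exact Or.inl h4
  have h6 : (Bx (k + 1) d).ncard =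
      {a : Fin (k + 1) → ℕ | ∑ i, a i ≤ d ∧ 0 < a 0}.ncard + (Bx k d).ncard := h2
  rw [h3, h6]
  ring

/-- the dimension of the space of homogeneous polynomials -/
theorem finrank_hom (K : Type) [Field K] (k d : ℕ) :
    Module.finrank K (homogeneousSubmodule (Fin (k + 1)) K d) = (Bx k d).ncard := by
  classical
  let e : {s : Fin (k + 1) →₀ ℕ | s.degree = d} ≃ Bx k d :=
    { toFun := fun s => ⟨fun i => s.1 i.succ, by
        have h := s.2
        change s.1.degree = d at h
        rw [Finsupp.degree_eq_sum, Fin.sum_univ_succ] at h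
        rw [mem_Bx]
        omega⟩
      invFun := fun a => ⟨Finsupp.equivFunOnFinite.symm (Fin.cons (d - ∑ i, a.1 i) a.1), by
        have h := mem_Bx.1 a.2
        change (Finsupp.equivFunOnFinite.symm (Fin.cons (d - ∑ i, a.1 i) a.1 :
          Fin (k + 1) → ℕ)).degree = d
        rw [Finsupp.degree_eq_sum]
        simp only [Finsupp.coe_equivFunOnFinite_symm]
        rw [sum_cons']
        omega⟩
      left_inv := by
        rintro ⟨s, h⟩
        apply Subtype.ext
        change s.degree = d at h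
        rw [Finsupp.degree_eq_sum, Fin.sum_univ_succ] at h
        ext i
        simp only [Finsupp.coe_equivFunOnFinite_symm]
        refine Fin.cases ?_ (fun j => ?_) i
        · rw [Fin.cons_zero]
          omega
        · rw [Fin.cons_succ]
      right_inv := by
        rintro ⟨a, h⟩
        apply Subtype.ext
        funext i
        simp }
  have h1 : Module.finrank K (homogeneousSubmodule (Fin (k + 1)) K d) =
      Module.finrank K ({s : Fin (k + 1) →₀ ℕ | s.degree = d} →₀ K) := by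
    rw [homogeneousSubmodule_eq_finsupp_supported]
    exact (AddMonoidAlgebra.supportedEquivFinsupp _).finrank_eq
  let _ : Fintype (Bx k d) := (Bx_finite k d).fintype
  let _ : Fintype {s : Fin (k + 1) →₀ ℕ | s.degree = d} := Fintype.ofEquiv _ e.symm
  rw [h1, Module.finrank_finsupp_self, ← Nat.card_eq_fintype_card, Nat.card_congr e,
    Nat.card_coe_set_eq]

end Pool.Agent.H294R3
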