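import Mathlib
import Pool.Agent.Helper834.EC.Dim1

/-!
# Generic projection of a finite set of homogeneous primes: preparations
-/

open MvPolynomial

namespace Pool.Agent.H294R3

variable {K : Type} [Field K]

/-- an ideal closed under taking homogeneous components -/
def HC {σ : Type} (I : Ideal (MvPolynomial σ K)) : Prop :=
  ∀ p ∈ I, ∀ n, homogeneousComponent n p ∈ I

/-- the zeros of an ideal -/
def Zr {σ : Type} (I : Ideal (MvPolynomial σ K)) : Set (σ → K) := {z | ∀ p ∈ I, eval z p = 0}

theorem eval_smul_hom {σ : Type} {p : MvPolynomial σ K} {n : ℕ} (hp : p.IsHomogeneous n) (t : K)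
    (z : σ → K) : eval (t • z) p = t ^ n * eval z p := by
  rw [eval_eq, eval_eq, Finset.mul_sum]
  refine Finset.sum_congr rfl fun e he => ?_
  have h1 : ∏ i ∈ e.support, (t • z) i ^ e i = t ^ n * ∏ i ∈ e.support, z i ^ e i := by
    simp only [Pi.smul_apply, smul_eq_mul, mul_pow, Finset.prod_mul_distrib]
    rw [Finset.prod_pow_eq_pow_sum]
    congr 2
    have := hp.degree_eq_sum_deg_support he
    rw [this]
  rw [h1]
  ring

theorem Zr_smul {σ : Type} {I : Ideal (MvPolynomial σ K)} (hI : HC I) {z : σ → K} (hz : z ∈ Zr I)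
    (t : K) : t • z ∈ Zr I := by
  intro p hp
  rw [← sum_homogeneousComponent p, map_sum]
  refine Finset.sum_eq_zero fun n _ => ?_
  rw [eval_smul_hom (homogeneousComponent_isHomogeneous n p), hz _ (hI p hp n), mul_zero]

/-- the join of the point `y` and the zero set of `P` lies in a hypersurface -/
theorem exists_join {n : ℕ} (P : Ideal (MvPolynomial (Fin n) K)) [P.IsPrime]
    (hdim : ringKrullDim (MvPolynomial (Fin n) K ⧸ P) + 2 ≤ n) (y : Fin n → K) :
    ∃ G : MvPolynomial (Fin n) K, G ≠ 0 ∧ ∀ z ∈ Zr P, ∀ l : K, eval (z - l • y) G = 0 := by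
  let A := MvPolynomial (Fin n) K ⧸ P
  let φ : MvPolynomial (Fin n) K →ₐ[K] Polynomial A :=
    aeval fun i => Polynomial.C (Ideal.Quotient.mk P (X i)) -
      Polynomial.C (algebraMap K A (y i)) * Polynomial.X
  have hnot : ¬ Function.Injective φ := by
    intro hinj
    have : Algebra.FiniteType K (Polynomial A) :=
      Algebra.FiniteType.trans (S := A) inferInstance inferInstance
    obtain ⟨s, hs1, hs2⟩ := Pool.Agent.Helper834.EC.exists_ringKrullDim_eq_trdeg K (Polynomial A)
    have h1 : AlgebraicIndependent K (fun i => φ (X i)) := by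
      have : MvPolynomial.aeval (fun i => φ (X i)) = φ := by
        ext i; simp
      rw [AlgebraicIndependent, this]
      exact hinj
    have h2 := h1.cardinalMk_le_trdeg
    rw [hs2] at h2
    have h3 : n ≤ s := by simpa using h2
    have h4 : ringKrullDim A + 1 = s := by
      rw [← hs1, Polynomial.ringKrullDim_of_isNoetherianRing]
    have h5 : (s : WithBot ℕ∞) + 1 ≤ n := by
      rw [← h4]
      refine le_trans (le_of_eq ?_) hdim
      rw [add_assoc, one_add_one_eq_two]
    have h6 : (s + 1 : ℕ) ≤ n := by exact_mod_cast h5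
    omega
  rw [injective_iff_map_eq_zero] at hnot
  push Not at hnot
  obtain ⟨G, hG1, hG2⟩ := hnot
  refine ⟨G, hG2, fun z hz l => ?_⟩
  let e1 : A →+* K := Ideal.Quotient.lift P (eval z) hz
  have he1 : ∀ p : MvPolynomial (Fin n) K, e1 (Ideal.Quotient.mk P p) = eval z p := fun p =>
    Ideal.Quotient.lift_mk P (eval z) hz
  let e2 : Polynomial A →+* K := Polynomial.eval₂RingHom e1 l
  have h1 : e2.comp (φ : MvPolynomial (Fin n) K →+* Polynomial A) = eval (z - l • y) := by
    apply MvPolynomial.ringHom_ext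
    · intro r
      rw [RingHom.comp_apply, RingHom.coe_coe, eval_C]
      have h2 : φ (C r) = Polynomial.C (Ideal.Quotient.mk P (C r)) := φ.commutes r
      rw [h2]
      simp only [e2, Polynomial.coe_eval₂RingHom, Polynomial.eval₂_C]
      rw [he1, eval_C]
    · intro i
      have h2 : φ (X i) = Polynomial.C (Ideal.Quotient.mk P (X i)) -
          Polynomial.C (Ideal.Quotient.mk P (C (y i))) * Polynomial.X := aeval_X _ _
      rw [RingHom.comp_apply, RingHom.coe_coe, h2]
      simp only [e2, Polynomial.coe_eval₂RingHom, Polynomial.eval₂_sub, Polynomial.eval₂_C,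
        Polynomial.eval₂_mul, Polynomial.eval₂_X]
      rw [he1, he1, eval_C, eval_X, eval_X, Pi.sub_apply, Pi.smul_apply, smul_eq_mul, mul_comm]
  rw [← h1, RingHom.comp_apply, RingHom.coe_coe, hG1, map_zero]

end Pool.Agent.H294R3
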