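import Mathlib
import Pool.Agent.H294R3.Proj1

/-!
# Homogeneous primes of codimension one are principal
-/

open MvPolynomial

namespace Pool.Agent.H294R3

variable {K : Type} [Field K] {n : ℕ}

theorem dim_poly (n : ℕ) : ringKrullDim (MvPolynomial (Fin n) K) = n := by
  rw [MvPolynomial.ringKrullDim_of_isNoetherianRing, ringKrullDim_eq_zero_of_field, Nat.card_fin,
    zero_add]

theorem ne_bot_of_dim (P : Ideal (MvPolynomial (Fin n) K)) (c : ℕ) (hc : 1 ≤ c)
    (h : ringKrullDim (MvPolynomial (Fin n) K ⧸ P) + c = n) : P ≠ ⊥ := by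
  intro hP
  rw [hP] at h
  have h3 : ringKrullDim (MvPolynomial (Fin n) K ⧸
      (⊥ : Ideal (MvPolynomial (Fin n) K))) = ringKrullDim (MvPolynomial (Fin n) K) :=
    ringKrullDim_eq_of_ringEquiv (RingEquiv.quotientBot _)
  rw [h3, dim_poly] at h
  have h4 : n + c = n := by exact_mod_cast h
  omega

theorem exists_gen0 (P : Ideal (MvPolynomial (Fin n) K)) (hP : P.IsPrime)
    (h : ringKrullDim (MvPolynomial (Fin n) K ⧸ P) + (1 : ℕ) = n) :
    ∃ g, Prime g ∧ P = Ideal.span {g} := by
  obtain ⟨g, hgP, hg⟩ := hP.exists_mem_prime_of_ne_bot (ne_bot_of_dim P 1 le_rfl h)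
  refine ⟨g, hg, ?_⟩
  by_contra hne
  have hle : Ideal.span {g} ≤ P := by rwa [Ideal.span_singleton_le_iff_mem]
  obtain ⟨x, hxP, hx⟩ := Set.not_subset.1 (fun hsub => hne (le_antisymm hsub hle))
  have hprime : (Ideal.span {g}).IsPrime := (Ideal.span_singleton_prime hg.ne_zero).2 hg
  let R1 := MvPolynomial (Fin n) K ⧸ Ideal.span {g}
  let x1 : R1 := Ideal.Quotient.mk _ x
  have hx1 : x1 ≠ 0 := fun h0 => hx (Ideal.Quotient.eq_zero_iff_mem.1 h0)
  have h1 : ringKrullDim R1 + 1 ≤ n := by
    rw [← dim_poly (K := K) n]
    exact ringKrullDim_quotient_succ_le_of_nonZeroDivisor (mem_nonZeroDivisors_of_ne_zero hg.ne_zero)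
  have h2 : ringKrullDim (R1 ⧸ Ideal.span {x1}) + 1 ≤ ringKrullDim R1 :=
    ringKrullDim_quotient_succ_le_of_nonZeroDivisor (mem_nonZeroDivisors_of_ne_zero hx1)
  have h3 : ringKrullDim (MvPolynomial (Fin n) K ⧸ P) ≤ ringKrullDim (R1 ⧸ Ideal.span {x1}) := by
    let φ : R1 →+* MvPolynomial (Fin n) K ⧸ P := Ideal.Quotient.factor hle
    let ψ : (R1 ⧸ Ideal.span {x1}) →+* MvPolynomial (Fin n) K ⧸ P :=
      Ideal.Quotient.lift _ φ (by
        intro a ha
        rw [Ideal.mem_span_singleton'] at ha
        obtain ⟨b, rfl⟩ := ha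
        rw [map_mul]
        have : φ x1 = 0 := Ideal.Quotient.eq_zero_iff_mem.2 hxP
        rw [this, mul_zero])
    refine ringKrullDim_le_of_surjective ψ ?_
    intro a
    obtain ⟨b, rfl⟩ := Ideal.Quotient.mk_surjective a
    exact ⟨Ideal.Quotient.mk _ (Ideal.Quotient.mk _ b), rfl⟩
  have h4 : ringKrullDim (MvPolynomial (Fin n) K ⧸ P) + (1 : ℕ) + 1 ≤ n := by
    refine le_trans (add_le_add_left ?_ 1) h1
    exact (add_le_add_left h3 _).trans h2
  rw [h] at h4
  have h5 : n + 1 ≤ n := by exact_mod_cast h4
  omega

theorem exists_gen (P : Ideal (MvPolynomial (Fin n) K)) (hP : P.IsPrime) (hHC : HC P)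
    (h : ringKrullDim (MvPolynomial (Fin n) K ⧸ P) + (1 : ℕ) = n) :
    ∃ (g : MvPolynomial (Fin n) K) (e : ℕ), 1 ≤ e ∧ g.IsHomogeneous e ∧ Prime g ∧
      P = Ideal.span {g} := by
  obtain ⟨g, hg, hPg⟩ := exists_gen0 P hP h
  set N := g.totalDegree with hN
  have hgP : g ∈ P := by rw [hPg]; exact Ideal.mem_span_singleton_self g
  have h1 := hHC g hgP N
  rw [hPg, Ideal.mem_span_singleton] at h1
  obtain ⟨u, hu⟩ := h1
  have hne : homogeneousComponent N g ≠ 0 := by
    intro h0
    obtain ⟨s, hs1, hs2⟩ : ∃ s ∈ g.support, s.degree = N := by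
      have hne : g.support.Nonempty := by
        rw [Finset.nonempty_iff_ne_empty, Ne, support_eq_empty]
        exact hg.ne_zero
      obtain ⟨s, hs1, hs2⟩ := Finset.exists_mem_eq_sup g.support hne (fun s => s.sum fun _ e => e)
      exact ⟨s, hs1, by
        rw [hN, totalDegree, hs2]
        rfl⟩
    have := congrArg (coeff s) h0
    rw [coeff_homogeneousComponent, if_pos hs2, coeff_zero] at this
    exact (mem_support_iff.1 hs1) this
  have hu0 : u ≠ 0 := by
    rintro rfl
    rw [mul_zero] at hu
    exact hne hu
  have hhom := homogeneousComponent_isHomogeneous N g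
  have hdeg : (homogeneousComponent N g).totalDegree = N := hhom.totalDegree hne
  have hdu : u.totalDegree = 0 := by
    rw [hu, totalDegree_mul_of_isDomain hg.ne_zero hu0] at hdeg
    omega
  rw [totalDegree_eq_zero_iff_eq_C] at hdu
  have hunit : IsUnit u := by
    rw [hdu]
    apply IsUnit.map
    rw [isUnit_iff_ne_zero]
    intro h4
    rw [h4, C_0] at hdu
    exact hu0 hdu
  have hass : Associated g (homogeneousComponent N g) := by
    rw [hu]
    exact (associated_mul_unit_right g u hunit)
  refine ⟨homogeneousComponent N g, N, ?_, hhom, hass.prime hg, ?_⟩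
  · by_contra hcon
    have hN0 : N = 0 := by omega
    have h2 : g.totalDegree = 0 := hN0
    rw [totalDegree_eq_zero_iff_eq_C] at h2
    apply hg.not_unit
    rw [h2]
    apply IsUnit.map
    rw [isUnit_iff_ne_zero]
    intro h4
    rw [h4, C_0] at h2
    exact hg.ne_zero h2
  · rw [hPg]
    exact Ideal.span_singleton_eq_span_singleton.2 hass

/-- a nonzero factor of a homogeneous polynomial whose cofactor is homogeneous is homogeneous -/
theorem hom_of_mul {G F : MvPolynomial (Fin n) K} {g d : ℕ} (hG : G.IsHomogeneous g) (hG0 : G ≠ 0)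
    (hF : F ≠ 0) (h : (G * F).IsHomogeneous d) : g ≤ d ∧ F.IsHomogeneous (d - g) := by
  have key : ∀ e, g + e ≠ d → homogeneousComponent e F = 0 := by
    intro e he
    have h1 : homogeneousComponent (g + e) (G * F) = G * homogeneousComponent e F := by
      conv_lhs => rw [← sum_homogeneousComponent F, Finset.mul_sum, map_sum]
      by_cases hn : e ∈ Finset.range (F.totalDegree + 1)
      · rw [Finset.sum_eq_single e]
        · rw [homogeneousComponent_of_mem (hG.mul (homogeneousComponent_isHomogeneous e F)),
            if_pos rfl]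
        · intro m _ hm
          rw [homogeneousComponent_of_mem (hG.mul (homogeneousComponent_isHomogeneous m F)),
            if_neg (by omega)]
        · intro h
          exact absurd hn h
      · rw [Finset.sum_eq_zero]
        · rw [homogeneousComponent_eq_zero e F (by
            rw [Finset.mem_range, not_lt] at hn
            omega), mul_zero]
        · intro m hm
          rw [homogeneousComponent_of_mem (hG.mul (homogeneousComponent_isHomogeneous m F)),
            if_neg]
          intro h
          have : e = m := by omega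
          rw [this] at hn
          exact hn hm
    rw [homogeneousComponent_of_mem h, if_neg he] at h1
    rcases mul_eq_zero.1 h1.symm with h2 | h2
    · exact absurd h2 hG0
    · exact h2
  have hgd : g ≤ d := by
    by_contra hcon
    apply hF
    rw [← sum_homogeneousComponent F]
    exact Finset.sum_eq_zero fun e _ => key e (by omega)
  refine ⟨hgd, ?_⟩
  have : F = homogeneousComponent (d - g) F := by
    conv_lhs => rw [← sum_homogeneousComponent F]
    by_cases hn : d - g ∈ Finset.range (F.totalDegree + 1)
    · rw [Finset.sum_eq_single (d - g)]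
      · intro m _ hm
        exact key m (by omega)
      · intro h
        exact absurd hn h
    · rw [Finset.sum_eq_zero]
      · rw [homogeneousComponent_eq_zero _ F (by
            rw [Finset.mem_range, not_lt] at hn
            omega)]
      · intro m hm
        apply key
        intro h
        have : m = d - g := by omega
        rw [this] at hm
        exact hn hm
  rw [this]
  exact homogeneousComponent_isHomogeneous _ _

end Pool.Agent.H294R3
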