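import Mathlib
import Pool.Agent.H294R3.Proj1

/-!
# Projection from the point `(1, 0, ..., 0)`
-/

open MvPolynomial

namespace Pool.Agent.H294R3

variable {K : Type} [Field K] {k : ℕ}

/-- the inclusion of the polynomials in the last `k` variables -/
noncomputable abbrev rs (K : Type) [Field K] (k : ℕ) :
    MvPolynomial (Fin k) K →ₐ[K] MvPolynomial (Fin (k + 1)) K := rename Fin.succ

/-- the point `(1, 0, ..., 0)` -/
def e0 (K : Type) [Field K] (k : ℕ) : Fin (k + 1) → K := Fin.cons 1 0

/-- the contraction -/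
noncomputable def contr (P : Ideal (MvPolynomial (Fin (k + 1)) K)) :
    Ideal (MvPolynomial (Fin k) K) := P.comap (rs K k)

theorem contr_prime (P : Ideal (MvPolynomial (Fin (k + 1)) K)) [hP : P.IsPrime] :
    (contr P).IsPrime := Ideal.IsPrime.comap _

theorem contr_HC {P : Ideal (MvPolynomial (Fin (k + 1)) K)} (hP : HC P) : HC (contr P) := by
  intro p hp n
  rw [contr, Ideal.mem_comap, rs, rename_homogeneousComponent]
  exact hP _ hp n

/-- a homogeneous polynomial that does not vanish at `(1, 0, ..., 0)` is, up to a constant, monic in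
the first variable -/
theorem leadingCoeff_unit {f : MvPolynomial (Fin (k + 1)) K} {N : ℕ} (hf : f.IsHomogeneous N)
    (h : eval (e0 K k) f ≠ 0) : IsUnit (finSuccEquiv K k f).leadingCoeff := by
  set p := finSuccEquiv K k f with hp
  have hdeg : p.natDegree ≤ N := by
    rw [hp, natDegree_finSuccEquiv]
    exact (degreeOf_le_totalDegree f 0).trans hf.totalDegree_le
  have hc : (p.coeff N).IsHomogeneous 0 := hf.finSuccEquiv_coeff_isHomogeneous N 0 (by simp)
  have hcN : p.coeff N ≠ 0 := by
    intro h0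
    apply h
    have hz : Polynomial.map (eval (0 : Fin k → K)) p = 0 := by
      ext i
      rw [Polynomial.coeff_map, Polynomial.coeff_zero]
      rcases lt_trichotomy i N with hi | hi | hi
      · have h1 : (p.coeff i).IsHomogeneous (N - i) :=
          hf.finSuccEquiv_coeff_isHomogeneous i (N - i) (by omega)
        have h2 := eval_smul_hom h1 0 (0 : Fin k → K)
        rw [zero_smul, zero_pow (by omega), zero_mul] at h2
        exact h2
      · rw [hi, h0, map_zero]
      · rw [Polynomial.coeff_eq_zero_of_natDegree_lt (by omega), map_zero]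
    rw [e0, eval_eq_eval_mv_eval', ← hp, hz, Polynomial.eval_zero]
  have hN : p.natDegree = N := le_antisymm hdeg (Polynomial.le_natDegree_of_ne_zero hcN)
  have h3 : (p.coeff N).totalDegree = 0 := (totalDegree_zero_iff_isHomogeneous _).2 hc
  rw [totalDegree_eq_zero_iff_eq_C] at h3
  rw [Polynomial.leadingCoeff, hN, h3]
  apply IsUnit.map
  rw [isUnit_iff_ne_zero]
  intro h4
  rw [h4, C_0] at h3
  exact hcN h3

/-- integrality over the ring of polynomials in the last `k` variables -/
theorem integral_of_good (P : Ideal (MvPolynomial (Fin (k + 1)) K)) (hHC : HC P)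
    {f : MvPolynomial (Fin (k + 1)) K} (hfP : f ∈ P) (hf : eval (e0 K k) f ≠ 0) :
    ((Ideal.Quotient.mk P).comp (rs K k : MvPolynomial (Fin k) K →+* _)).IsIntegral := by
  set g : MvPolynomial (Fin k) K →+* MvPolynomial (Fin (k + 1)) K ⧸ P :=
    (Ideal.Quotient.mk P).comp (rs K k : MvPolynomial (Fin k) K →+* _) with hg
  obtain ⟨N, hN⟩ : ∃ N, eval (e0 K k) (homogeneousComponent N f) ≠ 0 := by
    by_contra hcon
    push Not at hcon
    apply hf
    rw [← sum_homogeneousComponent f, map_sum]
    exact Finset.sum_eq_zero fun n _ => hcon n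
  obtain ⟨u, hu⟩ := leadingCoeff_unit (homogeneousComponent_isHomogeneous N f) hN
  set p := finSuccEquiv K k (homogeneousComponent N f) with hp
  have key : ∀ F : MvPolynomial (Fin (k + 1)) K,
      Ideal.Quotient.mk P F = Polynomial.eval₂ g (Ideal.Quotient.mk P (X 0))
        (finSuccEquiv K k F) := by
    intro F
    induction F using MvPolynomial.induction_on with
    | C a =>
      rw [finSuccEquiv_apply, eval₂Hom_C]
      simp [hg]
    | add p q hp hq => rw [map_add, hp, hq, map_add, Polynomial.eval₂_add]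
    | mul_X p i hp =>
      rw [map_mul, hp, map_mul, Polynomial.eval₂_mul]
      congr 1
      refine Fin.cases ?_ (fun j => ?_) i
      · rw [finSuccEquiv_X_zero, Polynomial.eval₂_X]
      · rw [finSuccEquiv_X_succ, Polynomial.eval₂_C, hg]
        simp
  have h0 : g.IsIntegralElem (Ideal.Quotient.mk P (X 0)) := by
    refine ⟨Polynomial.C (↑u⁻¹ : MvPolynomial (Fin k) K) * p, ?_, ?_⟩
    · apply Polynomial.monic_C_mul_of_mul_leadingCoeff_eq_one
      rw [← hu, Units.inv_mul]
    · rw [Polynomial.eval₂_mul, ← key, Ideal.Quotient.eq_zero_iff_mem.2 (hHC f hfP N), mul_zero]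
  intro a
  obtain ⟨F, rfl⟩ := Ideal.Quotient.mk_surjective a
  induction F using MvPolynomial.induction_on with
  | C a =>
    have : Ideal.Quotient.mk P (C a) = g (C a) := by simp [hg]
    rw [this]
    exact g.isIntegralElem_map
  | add p q hp hq => rw [map_add]; exact RingHom.IsIntegralElem.add g hp hq
  | mul_X p i hp =>
    rw [map_mul]
    refine RingHom.IsIntegralElem.mul g hp ?_
    refine Fin.cases h0 (fun j => ?_) i
    have : Ideal.Quotient.mk P (X j.succ) = g (X j) := by simp [hg]
    rw [this]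
    exact g.isIntegralElem_map

theorem ringKrullDim_contr (P : Ideal (MvPolynomial (Fin (k + 1)) K)) (hHC : HC P)
    {f : MvPolynomial (Fin (k + 1)) K} (hfP : f ∈ P) (hf : eval (e0 K k) f ≠ 0) :
    ringKrullDim (MvPolynomial (Fin k) K ⧸ contr P) =
      ringKrullDim (MvPolynomial (Fin (k + 1)) K ⧸ P) := by
  have hint := integral_of_good P hHC hfP hf
  let g : (MvPolynomial (Fin k) K ⧸ contr P) →+* (MvPolynomial (Fin (k + 1)) K ⧸ P) :=
    Ideal.quotientMap P (rs K k : MvPolynomial (Fin k) K →+* _) le_rfl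
  have hg : Function.Injective g := Ideal.quotientMap_injective
  let : Algebra (MvPolynomial (Fin k) K ⧸ contr P) (MvPolynomial (Fin (k + 1)) K ⧸ P) :=
    g.toAlgebra
  have hI : Algebra.IsIntegral (MvPolynomial (Fin k) K ⧸ contr P)
      (MvPolynomial (Fin (k + 1)) K ⧸ P) := by
    constructor
    intro a
    obtain ⟨p, hp1, hp2⟩ := hint a
    refine ⟨p.map (Ideal.Quotient.mk (contr P)), hp1.map _, ?_⟩
    rw [Polynomial.eval₂_map]
    exact hp2
  apply le_antisymm
  · exact Pool.Agent.Helper834.EC.ringKrullDim_ge_of_integral hg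
  · exact Pool.Agent.Helper834.EC.ringKrullDim_le_of_integral

/-- the image of the zero set under the projection is closed -/
theorem exists_lift [IsAlgClosed K] (P : Ideal (MvPolynomial (Fin (k + 1)) K)) (hHC : HC P)
    {f : MvPolynomial (Fin (k + 1)) K} (hfP : f ∈ P) (hf : eval (e0 K k) f ≠ 0)
    (y : Fin k → K) (hy : y ∈ Zr (contr P)) :
    ∃ z ∈ Zr P, ∀ i, z (Fin.succ i) = y i := by
  have hint := integral_of_good P hHC hfP hf
  let g : MvPolynomial (Fin k) K →+* (MvPolynomial (Fin (k + 1)) K ⧸ P) :=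
    (Ideal.Quotient.mk P).comp (rs K k : MvPolynomial (Fin k) K →+* _)
  let : Algebra (MvPolynomial (Fin k) K) (MvPolynomial (Fin (k + 1)) K ⧸ P) := g.toAlgebra
  have hI : Algebra.IsIntegral (MvPolynomial (Fin k) K) (MvPolynomial (Fin (k + 1)) K ⧸ P) :=
    ⟨fun a => hint a⟩
  have hmax : (vanishingIdeal K {y}).IsMaximal := isMaximal_iff_eq_vanishingIdeal_singleton.2 ⟨y, rfl⟩
  obtain ⟨M, hM1, hM2⟩ := Ideal.exists_ideal_over_maximal_of_isIntegral
    (S := MvPolynomial (Fin (k + 1)) K ⧸ P) (vanishingIdeal K {y}) (by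
      intro q hq
      have h1 : Ideal.Quotient.mk P (rs K k q) = 0 := hq
      rw [Ideal.Quotient.eq_zero_iff_mem] at h1
      rw [mem_vanishingIdeal_singleton_iff]
      have := hy q h1
      rwa [← coe_aeval_eq_eval] at this)
  have hM3 : (M.comap (Ideal.Quotient.mk P)).IsMaximal :=
    Ideal.comap_isMaximal_of_surjective _ Ideal.Quotient.mk_surjective
  obtain ⟨z, hz⟩ := isMaximal_iff_eq_vanishingIdeal_singleton.1 hM3
  refine ⟨z, ?_, ?_⟩
  · intro p hp
    have h1 : p ∈ M.comap (Ideal.Quotient.mk P) := by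
      rw [Ideal.mem_comap, Ideal.Quotient.eq_zero_iff_mem.2 hp]
      exact M.zero_mem
    rw [hz, mem_vanishingIdeal_singleton_iff] at h1
    rwa [← coe_aeval_eq_eval]
  · intro i
    have h1 : X i - C (y i) ∈ vanishingIdeal K {y} := by
      rw [mem_vanishingIdeal_singleton_iff]
      simp
    rw [← hM2] at h1
    have h2 : rs K k (X i - C (y i)) ∈ M.comap (Ideal.Quotient.mk P) := h1
    rw [hz, mem_vanishingIdeal_singleton_iff] at h2
    simpa [sub_eq_zero] using h2

/-- incomparability after the projection -/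
theorem contr_not_le [IsAlgClosed K] (P P' : Ideal (MvPolynomial (Fin (k + 1)) K)) (hHC : HC P)
    {f : MvPolynomial (Fin (k + 1)) K} (hfP : f ∈ P) (hf : eval (e0 K k) f ≠ 0)
    (y : Fin (k + 1) → K) (hy' : y ∈ Zr P') (hy : y ∉ Zr P)
    (G : MvPolynomial (Fin (k + 1)) K) (hG : ∀ z ∈ Zr P, ∀ l : K, eval (z - l • y) G = 0)
    (hG0 : eval (e0 K k) G ≠ 0) : ¬ contr P ≤ contr P' := by
  intro hle
  obtain ⟨z, hz1, hz2⟩ := exists_lift P hHC hfP hf (fun i => y i.succ) (by
    intro q hq
    have h1 : rs K k q ∈ P' := hle hq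
    have h2 := hy' _ h1
    rw [rs, eval_rename] at h2
    exact h2)
  by_cases hs : z 0 - y 0 = 0
  · apply hy
    have : z = y := by
      funext i
      refine Fin.cases ?_ (fun j => hz2 j) i
      exact sub_eq_zero.1 hs
    rwa [← this]
  · apply hG0
    have h1 : e0 K k = (z 0 - y 0)⁻¹ • z - (z 0 - y 0)⁻¹ • y := by
      funext i
      rw [← smul_sub, Pi.smul_apply, Pi.sub_apply, smul_eq_mul]
      refine Fin.cases ?_ (fun j => ?_) i
      · rw [inv_mul_cancel₀ hs]
        rfl
      · rw [hz2 j, sub_self, mul_zero]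
        rfl
    rw [h1]
    exact hG _ (Zr_smul hHC hz1 _) _

end Pool.Agent.H294R3
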