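import Mathlib
import Pool.Agent.H294R3.Proj2

/-!
# Generic projection of a finite set of homogeneous primes
-/

open MvPolynomial

namespace Pool.Agent.H294R3

variable {K : Type} [Field K] {k : ℕ}

theorem homogeneousComponent_map_of {σ τ : Type}
    (T : MvPolynomial σ K →ₐ[K] MvPolynomial τ K)
    (hT : ∀ (d : ℕ) (F : MvPolynomial σ K), F.IsHomogeneous d → (T F).IsHomogeneous d)
    (n : ℕ) (p : MvPolynomial σ K) :
    homogeneousComponent n (T p) = T (homogeneousComponent n p) := by
  conv_lhs => rw [← sum_homogeneousComponent p, map_sum, map_sum]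
  by_cases hn : n ∈ Finset.range (p.totalDegree + 1)
  · rw [Finset.sum_eq_single n]
    · rw [homogeneousComponent_of_mem (hT n _ (homogeneousComponent_isHomogeneous n p)), if_pos rfl]
    · intro m _ hm
      rw [homogeneousComponent_of_mem (hT m _ (homogeneousComponent_isHomogeneous m p)),
        if_neg (Ne.symm hm)]
    · intro h
      exact absurd hn h
  · rw [Finset.sum_eq_zero]
    · rw [homogeneousComponent_eq_zero n p (by
        rw [Finset.mem_range, not_lt] at hn
        omega), map_zero]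
    · intro m hm
      rw [homogeneousComponent_of_mem (hT m _ (homogeneousComponent_isHomogeneous m p)), if_neg]
      rintro rfl
      exact hn hm

/-- the linear substitution taking the point `(1, 0, ..., 0)` to `c` -/
noncomputable def subF (c : Fin (k + 1) → K) :
    MvPolynomial (Fin (k + 1)) K →ₐ[K] MvPolynomial (Fin (k + 1)) K :=
  aeval (Fin.cons (C (c 0) * X 0) fun j => X j.succ + C (c j.succ) * X 0)

/-- its inverse -/
noncomputable def subB (c : Fin (k + 1) → K) :
    MvPolynomial (Fin (k + 1)) K →ₐ[K] MvPolynomial (Fin (k + 1)) K :=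
  aeval (Fin.cons (C (c 0)⁻¹ * X 0) fun j => X j.succ - C (c j.succ) * (C (c 0)⁻¹ * X 0))

theorem subF_hom (c : Fin (k + 1) → K) (d : ℕ) (F : MvPolynomial (Fin (k + 1)) K)
    (hF : F.IsHomogeneous d) : (subF c F).IsHomogeneous d := by
  have := IsHomogeneous.aeval hF
    (Fin.cons (C (c 0) * X 0) fun j => X j.succ + C (c j.succ) * X 0 :
      Fin (k + 1) → MvPolynomial (Fin (k + 1)) K) (n := 1) (by
      intro i
      refine Fin.cases ?_ (fun j => ?_) i
      · exact isHomogeneous_C_mul_X _ _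
      · exact (isHomogeneous_X _ _).add (isHomogeneous_C_mul_X _ _))
  rwa [one_mul] at this

theorem subB_hom (c : Fin (k + 1) → K) (d : ℕ) (F : MvPolynomial (Fin (k + 1)) K)
    (hF : F.IsHomogeneous d) : (subB c F).IsHomogeneous d := by
  have := IsHomogeneous.aeval hF
    (Fin.cons (C (c 0)⁻¹ * X 0) fun j => X j.succ - C (c j.succ) * (C (c 0)⁻¹ * X 0) :
      Fin (k + 1) → MvPolynomial (Fin (k + 1)) K) (n := 1) (by
      intro i
      refine Fin.cases ?_ (fun j => ?_) i
      · exact isHomogeneous_C_mul_X _ _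
      · exact (isHomogeneous_X _ _).sub (IsHomogeneous.C_mul (isHomogeneous_C_mul_X _ _) _))
  rwa [one_mul] at this

/-- the linear change of coordinates -/
noncomputable def sub (c : Fin (k + 1) → K) (hc : c 0 ≠ 0) :
    MvPolynomial (Fin (k + 1)) K ≃ₐ[K] MvPolynomial (Fin (k + 1)) K :=
  AlgEquiv.ofAlgHom (subF c) (subB c)
    (by
      apply MvPolynomial.algHom_ext
      intro i
      refine Fin.cases ?_ (fun j => ?_) i
      · rw [AlgHom.comp_apply, subB, aeval_X, Fin.cons_zero, map_mul, algHom_C, subF, aeval_X,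
          Fin.cons_zero, AlgHom.id_apply, ← mul_assoc]
        rw [algebraMap_eq, ← C_mul, inv_mul_cancel₀ hc, C_1, one_mul]
      · rw [AlgHom.comp_apply, subB, aeval_X, Fin.cons_succ, map_sub, map_mul, map_mul, algHom_C,
          algHom_C, subF, aeval_X, aeval_X, Fin.cons_succ, Fin.cons_zero, AlgHom.id_apply]
        rw [algebraMap_eq, ← mul_assoc (C (c 0)⁻¹), ← C_mul, inv_mul_cancel₀ hc, C_1, one_mul]
        ring)
    (by
      apply MvPolynomial.algHom_ext
      intro i
      refine Fin.cases ?_ (fun j => ?_) i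
      · rw [AlgHom.comp_apply, subF, aeval_X, Fin.cons_zero, map_mul, algHom_C, subB, aeval_X,
          Fin.cons_zero, AlgHom.id_apply, ← mul_assoc]
        rw [algebraMap_eq, ← C_mul, mul_inv_cancel₀ hc, C_1, one_mul]
      · rw [AlgHom.comp_apply, subF, aeval_X, Fin.cons_succ, map_add, map_mul, algHom_C,
          subB, aeval_X, aeval_X, Fin.cons_succ, Fin.cons_zero, AlgHom.id_apply]
        rw [algebraMap_eq]
        ring)

/-- the linear map of points -/
def psi (c : Fin (k + 1) → K) (p : Fin (k + 1) → K) : Fin (k + 1) → K :=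
  Fin.cons (c 0 * p 0) fun j => p j.succ + c j.succ * p 0

theorem eval_subF (c p : Fin (k + 1) → K) (F : MvPolynomial (Fin (k + 1)) K) :
    eval p (subF c F) = eval (psi c p) F := by
  have h : (eval p).comp (subF c : MvPolynomial (Fin (k + 1)) K →+* _) = eval (psi c p) := by
    apply MvPolynomial.ringHom_ext
    · intro r
      rw [RingHom.comp_apply, RingHom.coe_coe, algHom_C, algebraMap_eq, eval_C, eval_C]
    · intro i
      rw [RingHom.comp_apply, RingHom.coe_coe, subF, aeval_X, eval_X]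
      refine Fin.cases ?_ (fun j => ?_) i
      · simp [psi]
      · simp [psi]
  rw [← h]
  rfl

theorem psi_e0 (c : Fin (k + 1) → K) : psi c (e0 K k) = c := by
  funext i
  refine Fin.cases ?_ (fun j => ?_) i
  · simp [psi, e0]
  · simp [psi, e0]

theorem psi_surj (c : Fin (k + 1) → K) (hc : c 0 ≠ 0) (y : Fin (k + 1) → K) :
    ∃ y', psi c y' = y := by
  refine ⟨Fin.cons ((c 0)⁻¹ * y 0) fun j => y j.succ - c j.succ * ((c 0)⁻¹ * y 0), ?_⟩
  funext i
  refine Fin.cases ?_ (fun j => ?_) i
  · simp [psi, hc]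
  · simp [psi]

theorem psi_sub (c z y : Fin (k + 1) → K) (l : K) :
    psi c (z - l • y) = psi c z - l • psi c y := by
  funext i
  refine Fin.cases ?_ (fun j => ?_) i
  · simp [psi]; ring
  · simp [psi]; ring

theorem exists_zero_not_zero [IsAlgClosed K] {n : ℕ} (P P' : Ideal (MvPolynomial (Fin n) K))
    (hP : P.IsPrime) (hP' : P'.IsPrime) (h : ¬ P ≤ P') : ∃ y, y ∈ Zr P' ∧ y ∉ Zr P := by
  by_contra hcon
  push Not at hcon
  apply h
  have h1 : vanishingIdeal K (zeroLocus K P) ≤ vanishingIdeal K (zeroLocus K P') := by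
    apply vanishingIdeal_anti_mono
    intro y hy
    have h2 : y ∈ Zr P' := fun p hp => by
      have := hy p hp
      rwa [← coe_aeval_eq_eval]
    intro p hp
    have := hcon y h2 p hp
    rwa [← coe_aeval_eq_eval] at this
  rwa [IsPrime.vanishingIdeal_zeroLocus (K := K) P, IsPrime.vanishingIdeal_zeroLocus (K := K) P'] at h1

/-- the projection of a finite family of pairwise incomparable homogeneous primes from a general
point -/
theorem exists_projection [IsAlgClosed K] {ι : Type} [Finite ι]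
    (P : ι → Ideal (MvPolynomial (Fin (k + 1)) K)) (hprime : ∀ i, (P i).IsPrime)
    (hHC : ∀ i, HC (P i)) (hinc : ∀ i j, P i ≤ P j → i = j)
    (hdim : ∀ i, ringKrullDim (MvPolynomial (Fin (k + 1)) K ⧸ P i) + 2 ≤ ((k + 1 : ℕ) : WithBot ℕ∞)) :
    ∃ (θ : MvPolynomial (Fin (k + 1)) K ≃ₐ[K] MvPolynomial (Fin (k + 1)) K)
      (Q : ι → Ideal (MvPolynomial (Fin k) K)),
      (∀ (d : ℕ) (F : MvPolynomial (Fin (k + 1)) K), F.IsHomogeneous d → (θ F).IsHomogeneous d) ∧
      (∀ (d : ℕ) (F : MvPolynomial (Fin (k + 1)) K), F.IsHomogeneous d →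
        (θ.symm F).IsHomogeneous d) ∧
      (∀ i q, q ∈ Q i ↔ θ.symm (rs K k q) ∈ P i) ∧ (∀ i, (Q i).IsPrime) ∧ (∀ i, HC (Q i)) ∧
      (∀ i j, Q i ≤ Q j → i = j) ∧
      (∀ i, ringKrullDim (MvPolynomial (Fin k) K ⧸ Q i) =
        ringKrullDim (MvPolynomial (Fin (k + 1)) K ⧸ P i)) := by
  classical
  cases nonempty_fintype ι
  have hinf : Infinite K := IsAlgClosed.instInfinite
  -- nonzero elements
  have hf : ∀ i, ∃ f ∈ P i, f ≠ 0 := by
    intro i
    by_contra hcon
    push Not at hcon
    have h1 : P i = ⊥ := by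
      rw [eq_bot_iff]
      intro f hf
      exact hcon f hf
    have h2 := hdim i
    rw [h1] at h2
    have h3 : ringKrullDim (MvPolynomial (Fin (k + 1)) K ⧸
        (⊥ : Ideal (MvPolynomial (Fin (k + 1)) K))) = ringKrullDim (MvPolynomial (Fin (k + 1)) K) :=
      ringKrullDim_eq_of_ringEquiv (RingEquiv.quotientBot _)
    rw [h3, MvPolynomial.ringKrullDim_of_isNoetherianRing, ringKrullDim_eq_zero_of_field] at h2
    rw [Nat.card_fin, zero_add] at h2
    have h4 : (k + 1) + 2 ≤ k + 1 := by exact_mod_cast h2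
    omega
  choose f hfP hf0 using hf
  have hy : ∀ i j, i ≠ j → ∃ y, y ∈ Zr (P j) ∧ y ∉ Zr (P i) := fun i j hij =>
    exists_zero_not_zero (P i) (P j) (hprime i) (hprime j) fun h => hij (hinc i j h)
  choose! y hy1 hy2 using hy
  have hG : ∀ i j, ∃ G : MvPolynomial (Fin (k + 1)) K, G ≠ 0 ∧
      ∀ z ∈ Zr (P i), ∀ l : K, eval (z - l • y i j) G = 0 := fun i j =>
    exists_join (P i) (hdim i) (y i j)
  choose G hG0 hG1 using hG
  -- a general point
  obtain ⟨c, hc⟩ : ∃ c : Fin (k + 1) → K,
      eval c (X 0 * (∏ i, f i) * ∏ i, ∏ j, G i j) ≠ 0 := by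
    by_contra hcon
    push Not at hcon
    have h1 : (X 0 * (∏ i, f i) * ∏ i, ∏ j, G i j : MvPolynomial (Fin (k + 1)) K) = 0 := by
      apply MvPolynomial.funext
      intro x
      rw [hcon x, map_zero]
    have h2 : (X 0 * (∏ i, f i) * ∏ i, ∏ j, G i j : MvPolynomial (Fin (k + 1)) K) ≠ 0 :=
      mul_ne_zero (mul_ne_zero (X_ne_zero _) (Finset.prod_ne_zero_iff.2 fun i _ => hf0 i))
        (Finset.prod_ne_zero_iff.2 fun i _ => Finset.prod_ne_zero_iff.2 fun j _ => hG0 i j)
    exact h2 h1
  rw [map_mul, map_mul, map_prod, map_prod] at hc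
  have hc0 : c 0 ≠ 0 := by
    intro h
    apply hc
    rw [eval_X, h, zero_mul, zero_mul]
  have hcf : ∀ i, eval c (f i) ≠ 0 := by
    intro i h
    apply hc
    rw [Finset.prod_eq_zero (Finset.mem_univ i) h, mul_zero, zero_mul]
  have hcG : ∀ i j, eval c (G i j) ≠ 0 := by
    intro i j h
    apply hc
    have h1 : eval c (∏ j, G i j) = 0 := by
      rw [map_prod]
      exact Finset.prod_eq_zero (Finset.mem_univ j) h
    have h2 : ∏ x, eval c (∏ j, G x j) = 0 := Finset.prod_eq_zero (Finset.mem_univ i) h1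
    rw [h2, mul_zero]
  let θ := sub c hc0
  have hθ : ∀ F, θ F = subF c F := fun F => rfl
  have hθs : ∀ F, θ.symm F = subB c F := fun F => rfl
  let P' : ι → Ideal (MvPolynomial (Fin (k + 1)) K) := fun i =>
    (P i).comap (θ.symm : MvPolynomial (Fin (k + 1)) K →+* MvPolynomial (Fin (k + 1)) K)
  have hmem : ∀ i F, F ∈ P' i ↔ θ.symm F ∈ P i := fun i F => Iff.rfl
  have hmem' : ∀ i F, F ∈ P i → subF c F ∈ P' i := fun i F hF => by
    rw [hmem, ← hθ, AlgEquiv.symm_apply_apply]
    exact hF
  have hP'HC : ∀ i, HC (P' i) := by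
    intro i p hp n
    rw [hmem, hθs, ← homogeneousComponent_map_of (subB c) (subB_hom c)]
    exact hHC i _ hp n
  have hP'prime : ∀ i, (P' i).IsPrime := fun i => Ideal.IsPrime.comap _
  have hZ : ∀ i z, z ∈ Zr (P' i) → psi c z ∈ Zr (P i) := by
    intro i z hz F hF
    rw [← eval_subF]
    exact hz _ (hmem' i F hF)
  have hZ' : ∀ i z, psi c z ∈ Zr (P i) → z ∈ Zr (P' i) := by
    intro i z hz F hF
    have h1 := hz _ hF
    rw [← eval_subF] at h1
    have h2 : subF c ((θ.symm : MvPolynomial (Fin (k + 1)) K →+* MvPolynomial (Fin (k + 1)) K) F)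
        = F := by
      rw [← hθ]
      exact AlgEquiv.apply_symm_apply _ _
    rwa [h2] at h1
  have hgood : ∀ i, eval (e0 K k) (subF c (f i)) ≠ 0 := by
    intro i
    rw [eval_subF, psi_e0]
    exact hcf i
  refine ⟨θ, fun i => contr (P' i), fun d F hF => subF_hom c d F hF,
    fun d F hF => subB_hom c d F hF, fun i q => Iff.rfl,
    fun i => contr_prime (P' i) (hP := hP'prime i), fun i => contr_HC (hP'HC i), ?_, ?_⟩
  · intro i j hle
    by_contra hij
    obtain ⟨y', hy'⟩ := psi_surj c hc0 (y i j)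
    refine contr_not_le (P' i) (P' j) (hP'HC i) (hmem' i _ (hfP i)) (hgood i) y' ?_ ?_
      (subF c (G i j)) ?_ ?_ hle
    · apply hZ'
      rw [hy']
      exact hy1 i j hij
    · intro h
      apply hy2 i j hij
      rw [← hy']
      exact hZ i y' h
    · intro z hz l
      rw [eval_subF, psi_sub, hy']
      exact hG1 i j _ (hZ i z hz) l
    · rw [eval_subF, psi_e0]
      exact hcG i j
  · intro i
    rw [ringKrullDim_contr (P' i) (hP'HC i) (hmem' i _ (hfP i)) (hgood i)]
    refine ringKrullDim_eq_of_ringEquiv (Ideal.quotientEquiv (P' i) (P i)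
      (θ.symm : MvPolynomial (Fin (k + 1)) K ≃+* MvPolynomial (Fin (k + 1)) K) ?_)
    exact (Ideal.map_comap_of_surjective _ θ.symm.surjective (P i)).symm

end Pool.Agent.H294R3
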