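import Mathlib
import Pool.Agent.H294R3.Proj3
import Pool.Agent.H294R3.Gen
import Pool.Agent.H294R3.Count

/-!
# The upper bound over an algebraically closed field
-/

open MvPolynomial

namespace Pool.Agent.H294R3

variable {K : Type} [Field K]

theorem finite_hom (n d : ℕ) : Module.Finite K (homogeneousSubmodule (Fin n) K d) :=
  Module.Finite.iff_fg.2 (homogeneousSubmodule_fg (Fin n) K d)

theorem finrank_map_inj {V W : Type} [AddCommGroup V] [Module K V] [AddCommGroup W] [Module K W]
    (f : V →ₗ[K] W) (hf : Function.Injective f) (p : Submodule K V) :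
    Module.finrank K (p.map f) = Module.finrank K p :=
  (LinearEquiv.finrank_eq (Submodule.equivMapOfInjective f hf p)).symm

theorem wb_nat {x : WithBot ℕ∞} {a b : ℕ} (h : x + (a : ℕ) = (b : ℕ)) :
    ∃ n : ℕ, x = n ∧ n + a = b := by
  induction x with
  | bot => simp at h
  | coe x =>
    induction x using ENat.recTopCoe with
    | top =>
      exfalso
      have h1 : ((⊤ + (a : ℕ∞) : ℕ∞) : WithBot ℕ∞) = ((b : ℕ∞) : WithBot ℕ∞) := h
      rw [WithBot.coe_inj] at h1
      simp at h1
    | coe n =>
      refine ⟨n, rfl, ?_⟩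
      have h1 : ((n + a : ℕ) : WithBot ℕ∞) = ((b : ℕ) : WithBot ℕ∞) := by
        rw [← h]; rfl
      exact_mod_cast h1

/-- the statement of the bound in `k + 1` variables -/
def BoundStmt (K : Type) [Field K] (k : ℕ) : Prop :=
  ∀ (ι : Type) [Finite ι] (P : ι → Ideal (MvPolynomial (Fin (k + 1)) K)) (c : ι → ℕ),
    (∀ i, (P i).IsPrime) → (∀ i, HC (P i)) → (∀ i j, P i ≤ P j → i = j) → (∀ i, 1 ≤ c i) →
    (∀ i, ringKrullDim (MvPolynomial (Fin (k + 1)) K ⧸ P i) + (c i : ℕ) =
      ((k + 1 : ℕ) : WithBot ℕ∞)) →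
    ∀ (d : ℕ) (W : Submodule K (MvPolynomial (Fin (k + 1)) K)),
      W ≤ homogeneousSubmodule (Fin (k + 1)) K d → (∀ i, ∀ F ∈ W, F ∈ P i) →
      Module.finrank K W ≤ Cnt (fun j : Fin k => Nat.card {i // c i = j.1 + 1}) d

theorem bound_zero : BoundStmt K 0 := by
  intro ι _ P c _ _ _ _ _ d W hW _
  have := finite_hom (K := K) 1 d
  have h1 := Submodule.finrank_mono hW
  rw [finrank_hom] at h1
  refine h1.trans (le_of_eq ?_)
  unfold Cnt
  congr 1
  ext a
  constructor
  · intro h
    exact ⟨h, le_of_eq (Subsingleton.elim _ _)⟩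
  · intro h
    exact h.1

/-- the case in which all codimensions are at least two -/
theorem step0 [IsAlgClosed K] {k : ℕ} (ih : BoundStmt K k) (ι : Type) [Finite ι]
    (P : ι → Ideal (MvPolynomial (Fin (k + 1 + 1)) K)) (c : ι → ℕ)
    (hprime : ∀ i, (P i).IsPrime) (hHC : ∀ i, HC (P i)) (hinc : ∀ i j, P i ≤ P j → i = j)
    (hc : ∀ i, 2 ≤ c i)
    (hdim : ∀ i, ringKrullDim (MvPolynomial (Fin (k + 1 + 1)) K ⧸ P i) + (c i : ℕ) =
      ((k + 1 + 1 : ℕ) : WithBot ℕ∞))
    (d : ℕ) (W : Submodule K (MvPolynomial (Fin (k + 1 + 1)) K))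
    (hW : W ≤ homogeneousSubmodule (Fin (k + 1 + 1)) K d) (hWP : ∀ i, ∀ F ∈ W, F ∈ P i) :
    Module.finrank K W ≤
      Cnt (Fin.cons 0 fun j : Fin k => Nat.card {i // c i = j.1 + 2} : Fin (k + 1) → ℕ) d := by
  obtain ⟨θ, Q, hθ1, hθ2, hQ, hQp, hQHC, hQinc, hQdim⟩ := exists_projection P hprime hHC hinc
    (fun i => by
      rw [← hdim i]
      refine add_le_add_right ?_ _
      exact_mod_cast hc i)
  -- the transformed space
  let W1 : Submodule K (MvPolynomial (Fin (k + 1 + 1)) K) := W.map θ.toLinearMap
  have hW1 : W1 ≤ homogeneousSubmodule (Fin (k + 1 + 1)) K d := by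
    rintro _ ⟨F, hF, rfl⟩
    exact hθ1 d F (hW hF)
  have hfW1 : Module.finrank K W1 = Module.finrank K W :=
    (LinearEquiv.finrank_map_eq θ.toLinearEquiv W)
  let r : MvPolynomial (Fin (k + 1)) K →ₗ[K] MvPolynomial (Fin (k + 1 + 1)) K :=
    (rs K (k + 1)).toLinearMap
  have hrinj : Function.Injective r := rename_injective _ (Fin.succ_injective _)
  let WR : Submodule K (MvPolynomial (Fin (k + 1)) K) := W1.comap r
  have hWR : WR ≤ homogeneousSubmodule (Fin (k + 1)) K d := by
    intro q hq
    have h1 : (rename Fin.succ q : MvPolynomial (Fin (k + 1 + 1)) K).IsHomogeneous d := hW1 hq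
    exact (IsHomogeneous.rename_isHomogeneous_iff (Fin.succ_injective _)).1 h1
  have hWRQ : ∀ i, ∀ q ∈ WR, q ∈ Q i := by
    intro i q hq
    rw [hQ]
    obtain ⟨F, hF, hF2⟩ := hq
    have h1 : θ F = rs K (k + 1) q := hF2
    rw [← h1, AlgEquiv.symm_apply_apply]
    exact hWP i F hF
  have h1 := ih ι Q (fun i => c i - 1) hQp hQHC hQinc (fun i => by have := hc i; omega)
    (fun i => by
      obtain ⟨n, hn1, hn2⟩ := wb_nat (hdim i)
      rw [hQdim i, hn1]
      have h2 := hc i
      have h3 : n + (c i - 1) = k + 1 := by omega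
      exact_mod_cast h3) d WR hWR hWRQ
  let Rd : Submodule K (MvPolynomial (Fin (k + 1 + 1)) K) :=
    (homogeneousSubmodule (Fin (k + 1)) K d).map r
  have hRd : Rd ≤ homogeneousSubmodule (Fin (k + 1 + 1)) K d := by
    rintro _ ⟨q, hq, rfl⟩
    exact IsHomogeneous.rename_isHomogeneous hq
  have := finite_hom (K := K) (k + 1 + 1) d
  have : Module.Finite K W1 := Module.Finite.of_injective (Submodule.inclusion hW1)
    (Submodule.inclusion_injective hW1)
  have : Module.Finite K Rd := Module.Finite.of_injective (Submodule.inclusion hRd)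
    (Submodule.inclusion_injective hRd)
  have h2 := Submodule.finrank_sup_add_finrank_inf_eq W1 Rd
  have h3 : W1 ⊓ Rd = WR.map r := by
    ext F
    constructor
    · rintro ⟨hF1, q, hq, rfl⟩
      exact ⟨q, hF1, rfl⟩
    · rintro ⟨q, hq, rfl⟩
      exact ⟨hq, q, hWR hq, rfl⟩
  have h4 : Module.finrank K (WR.map r : Submodule K _) = Module.finrank K WR :=
    finrank_map_inj r hrinj WR
  have h5 : Module.finrank K Rd = (Bx k d).ncard := by
    rw [← finrank_hom K k d]
    exact finrank_map_inj r hrinj _
  have h6 : Module.finrank K (W1 ⊔ Rd : Submodule K _) ≤ (Bx (k + 1) d).ncard := by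
    rw [← finrank_hom K (k + 1) d]
    exact Submodule.finrank_mono (sup_le hW1 hRd)
  rw [h3, h4, h5, hfW1] at h2
  have h7 := Cnt_cons_zero d fun j : Fin k => Nat.card {i // c i = j.1 + 2}
  have h8 : (fun j : Fin k => Nat.card {i // c i - 1 = j.1 + 1}) =
      fun j : Fin k => Nat.card {i // c i = j.1 + 2} := by
    funext j
    refine Nat.card_congr (Equiv.subtypeEquivRight fun i => ?_)
    have := hc i
    omega
  rw [h8] at h1
  omega

/-- **The bound.** -/
theorem bound (K : Type) [Field K] [IsAlgClosed K] (k : ℕ) : BoundStmt K k := by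
  classical
  induction k with
  | zero => exact bound_zero
  | succ k ih =>
    intro ι _ P c hprime hHC hinc hc hdim d W hW hWP
    cases nonempty_fintype ι
    by_cases hbot : W = ⊥
    · rw [hbot, finrank_bot]
      exact Nat.zero_le _
    obtain ⟨F0, hF0W, hF0⟩ := Submodule.exists_mem_ne_zero_of_ne_bot hbot
    have hgen : ∀ i : {i // c i = 1}, ∃ (g : MvPolynomial (Fin (k + 1 + 1)) K) (e : ℕ), 1 ≤ e ∧
        g.IsHomogeneous e ∧ Prime g ∧ P i = Ideal.span {g} := fun i =>
      exists_gen (P i) (hprime i) (hHC i) (by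
        have := hdim i
        rwa [i.2] at this)
    choose g e he hge hgp hPg using hgen
    let G : MvPolynomial (Fin (k + 1 + 1)) K := ∏ i, g i
    let E : ℕ := ∑ i, e i
    have hG0 : G ≠ 0 := Finset.prod_ne_zero_iff.2 fun i _ => (hgp i).ne_zero
    have hGE : G.IsHomogeneous E := IsHomogeneous.prod _ _ _ fun i _ => hge i
    have hE : Nat.card {i // c i = 1} ≤ E := by
      rw [Nat.card_eq_fintype_card, Fintype.card_eq_sum_ones]
      exact Finset.sum_le_sum fun i _ => he i
    have hdvd : ∀ F ∈ W, G ∣ F := by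
      intro F hF
      refine Finset.prod_dvd_of_isRelPrime ?_ ?_
      · intro i _ j _ hij
        change IsRelPrime (g i) (g j)
        rw [(hgp i).irreducible.isRelPrime_iff_not_dvd]
        intro h
        apply hij
        have h1 : P j ≤ P i := by
          rw [hPg i, hPg j, Ideal.span_singleton_le_span_singleton]
          exact h
        exact (Subtype.ext (hinc _ _ h1)).symm
      · intro i _
        have := hWP i F hF
        rwa [hPg i, Ideal.mem_span_singleton] at this
    -- the quotient space
    let L : MvPolynomial (Fin (k + 1 + 1)) K →ₗ[K] MvPolynomial (Fin (k + 1 + 1)) K :=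
      LinearMap.mulLeft K G
    have hL : ∀ F, L F = G * F := fun F => rfl
    have hLinj : Function.Injective L := by
      intro a b hab
      exact mul_left_cancel₀ hG0 hab
    let W' := W.comap L
    have hW'map : W'.map L = W := by
      apply le_antisymm
      · rintro _ ⟨F, hF, rfl⟩
        exact hF
      · intro F hF
        obtain ⟨F', hF'⟩ := hdvd F hF
        refine ⟨F', ?_, ?_⟩
        · change G * F' ∈ W
          rw [← hF']
          exact hF
        · rw [hL, hF']
    have hfin : Module.finrank K W' = Module.finrank K W := by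
      rw [← finrank_map_inj L hLinj W', hW'map]
    have hEd : E ≤ d := by
      obtain ⟨F', hF'⟩ := hdvd F0 hF0W
      refine (hom_of_mul hGE hG0 (F := F') ?_ (d := d) ?_).1
      · rintro rfl
        rw [mul_zero] at hF'
        exact hF0 hF'
      · rw [← hF']
        exact hW hF0W
    have hW' : W' ≤ homogeneousSubmodule (Fin (k + 1 + 1)) K (d - E) := by
      intro F hF
      rcases eq_or_ne F 0 with rfl | hF0
      · exact Submodule.zero_mem _
      · exact (hom_of_mul hGE hG0 hF0 (hW hF)).2
    have h1 := step0 ih {i // c i ≠ 1} (fun i => P i) (fun i => c i) (fun i => hprime i)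
      (fun i => hHC i) (fun i j h => Subtype.ext (hinc _ _ h))
      (fun i => by
        have h2 := hc i
        have h3 := i.2
        omega) (fun i => hdim i) (d - E) W' hW' (by
        intro i F hF
        have h2 : G * F ∈ P i := hWP i _ hF
        rcases (hprime i).mem_or_mem h2 with h3 | h3
        · exfalso
          rw [(hprime i).prod_mem_iff] at h3
          obtain ⟨j, -, hj⟩ := h3
          have h4 : P j ≤ P i := by
            rw [hPg j, Ideal.span_singleton_le_iff_mem]
            exact hj
          have h5 := hinc _ _ h4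
          apply i.2
          rw [← h5]
          exact j.2
        · exact h3)
    rw [hfin] at h1
    refine h1.trans ((Cnt_shift (Nat.card {i // c i = 1}) E d _ hE hEd).trans (le_of_eq ?_))
    congr 1
    funext j
    refine Fin.cases ?_ (fun j => ?_) j
    · rw [Fin.cons_zero]
      rfl
    · rw [Fin.cons_succ]
      refine Nat.card_congr
        { toFun := fun i => ⟨i.1.1, i.2⟩
          invFun := fun i => ⟨⟨i.1, by
            have h2 : c i.1 = (j : ℕ) + 1 + 1 := i.2
            omega⟩, i.2⟩
          left_inv := fun i => rfl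
          right_inv := fun i => rfl }

end Pool.Agent.H294R3
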