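import Mathlib
import Pool.Agent.H294R3.Bound

/-!
# The upper bound over an arbitrary field
-/

open MvPolynomial

namespace Pool.Agent.H294R3

attribute [local instance] MvPolynomial.gradedAlgebra
attribute [local instance] MvPolynomial.algebraMvPolynomial

theorem HC_of_isHomogeneous {F : Type} [Field F] {n : ℕ} {I : Ideal (MvPolynomial (Fin n) F)}
    (h : I.IsHomogeneous (homogeneousSubmodule (Fin n) F)) : HC I :=
  fun _ hp k => homogeneousComponent_mem_of_mem h hp k

/-- minimal primes of homogeneous ideals are homogeneous -/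
theorem HC_minimalPrime {F : Type} [Field F] {n : ℕ} {I P : Ideal (MvPolynomial (Fin n) F)}
    (h : I.IsHomogeneous (homogeneousSubmodule (Fin n) F)) (hP : P ∈ I.minimalPrimes) : HC P := by
  have h1 : (P.homogeneousCore (homogeneousSubmodule (Fin n) F)).toIdeal.IsPrime :=
    hP.1.1.homogeneousCore
  have h2 : I ≤ (P.homogeneousCore (homogeneousSubmodule (Fin n) F)).toIdeal := by
    rw [← h.toIdeal_homogeneousCore_eq_self]
    exact Ideal.homogeneousCore_mono _ hP.1.2
  have h3 : P ≤ (P.homogeneousCore (homogeneousSubmodule (Fin n) F)).toIdeal :=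
    hP.2 ⟨h1, h2⟩ (Ideal.toIdeal_homogeneousCore_le _ _)
  have h4 : P = (P.homogeneousCore (homogeneousSubmodule (Fin n) F)).toIdeal :=
    le_antisymm h3 (Ideal.toIdeal_homogeneousCore_le _ _)
  rw [h4]
  exact HC_of_isHomogeneous (P.homogeneousCore (homogeneousSubmodule (Fin n) F)).isHomogeneous

theorem isIntegral_map (F K : Type) [Field F] [Field K] [Algebra F K] [Algebra.IsIntegral F K]
    (n : ℕ) : Algebra.IsIntegral (MvPolynomial (Fin n) F) (MvPolynomial (Fin n) K) := by
  constructor
  intro b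
  induction b using MvPolynomial.induction_on with
  | C a =>
    have h1 : IsIntegral F (algebraMap K (MvPolynomial (Fin n) K) a) :=
      (Algebra.IsIntegral.isIntegral (R := F) a).map (IsScalarTower.toAlgHom F K _)
    exact h1.tower_top
  | add p q hp hq => exact hp.add hq
  | mul_X p i hp =>
    refine hp.mul ?_
    have : (X i : MvPolynomial (Fin n) K) =
        algebraMap (MvPolynomial (Fin n) F) (MvPolynomial (Fin n) K) (X i) := by
      rw [algebraMap_def, map_X]
    rw [this]
    exact isIntegral_algebraMap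

/-- a homogeneous prime of the polynomial ring over an algebraic extension over a given one -/
theorem exists_over (F K : Type) [Field F] [Field K] [Algebra F K] [Algebra.IsIntegral F K]
    {n : ℕ} (P : Ideal (MvPolynomial (Fin n) F)) (hP : P.IsPrime) (hHC : HC P) :
    ∃ Q : Ideal (MvPolynomial (Fin n) K), Q.IsPrime ∧ HC Q ∧
      (∀ p, map (algebraMap F K) p ∈ Q ↔ p ∈ P) ∧
      ringKrullDim (MvPolynomial (Fin n) K ⧸ Q) = ringKrullDim (MvPolynomial (Fin n) F ⧸ P) := by
  have hint := isIntegral_map F K n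
  have hinj : Function.Injective (algebraMap (MvPolynomial (Fin n) F) (MvPolynomial (Fin n) K)) := by
    rw [algebraMap_def]
    exact map_injective _ (algebraMap F K).injective
  obtain ⟨Q', -, hQ'1, hQ'2⟩ := Ideal.exists_ideal_over_prime_of_isIntegral
    (S := MvPolynomial (Fin n) K) P ⊥ (by
      rw [← RingHom.ker_eq_comap_bot, (RingHom.injective_iff_ker_eq_bot _).mp hinj]
      exact bot_le)
  let Q := (Q'.homogeneousCore (homogeneousSubmodule (Fin n) K)).toIdeal
  have hQle : Q ≤ Q' := Ideal.toIdeal_homogeneousCore_le _ _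
  have hQP : ∀ p, map (algebraMap F K) p ∈ Q ↔ p ∈ P := by
    intro p
    constructor
    · intro h
      rw [← hQ'2, Ideal.mem_comap, algebraMap_def]
      exact hQle h
    · intro h
      rw [← sum_homogeneousComponent p, map_sum]
      refine Ideal.sum_mem _ fun k _ => ?_
      refine Ideal.mem_homogeneousCore_of_homogeneous_of_mem
        ⟨k, (homogeneousComponent_isHomogeneous k p).map _⟩ ?_
      have h1 := hHC p h k
      rw [← hQ'2, Ideal.mem_comap, algebraMap_def] at h1
      exact h1
  refine ⟨Q, hQ'1.homogeneousCore, HC_of_isHomogeneous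
    (Q'.homogeneousCore (homogeneousSubmodule (Fin n) K)).isHomogeneous, hQP, ?_⟩
  have hcomap : P = Q.comap (algebraMap (MvPolynomial (Fin n) F) (MvPolynomial (Fin n) K)) := by
    ext p
    rw [Ideal.mem_comap, algebraMap_def, hQP]
  let g : (MvPolynomial (Fin n) F ⧸ P) →+* (MvPolynomial (Fin n) K ⧸ Q) :=
    Ideal.quotientMap Q (algebraMap (MvPolynomial (Fin n) F) (MvPolynomial (Fin n) K)) hcomap.le
  have hg : Function.Injective g := Ideal.quotientMap_injective' hcomap.ge
  let _ : Algebra (MvPolynomial (Fin n) F ⧸ P) (MvPolynomial (Fin n) K ⧸ Q) := g.toAlgebra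
  have hI : Algebra.IsIntegral (MvPolynomial (Fin n) F ⧸ P) (MvPolynomial (Fin n) K ⧸ Q) := by
    constructor
    intro a
    obtain ⟨b, rfl⟩ := Ideal.Quotient.mk_surjective a
    obtain ⟨p, hp1, hp2⟩ := hint.isIntegral b
    refine ⟨p.map (Ideal.Quotient.mk P), hp1.map _, ?_⟩
    rw [Polynomial.eval₂_map]
    have h1 : (algebraMap (MvPolynomial (Fin n) F ⧸ P) (MvPolynomial (Fin n) K ⧸ Q)).comp
        (Ideal.Quotient.mk P) = (Ideal.Quotient.mk Q).comp
          (algebraMap (MvPolynomial (Fin n) F) (MvPolynomial (Fin n) K)) := by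
      ext <;> rfl
    rw [h1, ← Polynomial.hom_eval₂, hp2, map_zero]
  apply le_antisymm
  · exact Pool.Agent.Helper834.EC.ringKrullDim_le_of_integral
  · exact Pool.Agent.Helper834.EC.ringKrullDim_ge_of_integral hg

/-- linear independence is preserved by extension of the base field -/
theorem linearIndependent_map (F K : Type) [Field F] [Field K] [Algebra F K] {n r : ℕ}
    (f : Fin r → MvPolynomial (Fin n) F) (hf : LinearIndependent F f) :
    LinearIndependent K fun i => map (algebraMap F K) (f i) := by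
  rw [Fintype.linearIndependent_iff] at hf ⊢
  intro g hg i
  rw [← Module.forall_dual_apply_eq_zero_iff F]
  intro φ
  refine hf (fun i => φ (g i)) ?_ i
  ext s
  have h1 := congrArg (coeff s) hg
  rw [coeff_sum, coeff_zero] at h1
  rw [coeff_sum, coeff_zero]
  have h2 := congrArg φ h1
  rw [map_sum, map_zero] at h2
  rw [← h2]
  refine Finset.sum_congr rfl fun j _ => ?_
  rw [coeff_smul, coeff_smul, coeff_map, smul_eq_mul, smul_eq_mul, mul_comm (g j),
    ← Algebra.smul_def, map_smul, smul_eq_mul, mul_comm]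

/-- The number of the irreducible components of codimension `j` of the projective variety defined
by the homogeneous ideal `I`. -/
noncomputable def numComp {F : Type} [Field F] {m : ℕ} (I : Ideal (MvPolynomial (Fin (m + 1)) F))
    (j : ℕ) : ℕ :=
  Nat.card {P : Ideal (MvPolynomial (Fin (m + 1)) F) // P ∈ I.minimalPrimes ∧
    ringKrullDim (MvPolynomial (Fin (m + 1)) F ⧸ P) + (j : ℕ) = ((m + 1 : ℕ) : WithBot ℕ∞)}

theorem exists_codim {F : Type} [Field F] {n : ℕ} (P : Ideal (MvPolynomial (Fin n) F))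
    (hP : P ≠ ⊤) : ∃ c : ℕ, ringKrullDim (MvPolynomial (Fin n) F ⧸ P) + (c : ℕ) = (n : ℕ) := by
  have h1 : ringKrullDim (MvPolynomial (Fin n) F ⧸ P) ≤ n := by
    rw [← dim_poly (K := F) n]
    exact ringKrullDim_quotient_le P
  have : Nontrivial (MvPolynomial (Fin n) F ⧸ P) := Ideal.Quotient.nontrivial_iff.2 hP
  have h2 : (0 : WithBot ℕ∞) ≤ ringKrullDim (MvPolynomial (Fin n) F ⧸ P) :=
    ringKrullDim_nonneg_of_nontrivial
  generalize ringKrullDim (MvPolynomial (Fin n) F ⧸ P) = x at h1 h2
  induction x with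
  | bot => simp at h2
  | coe x =>
    induction x using ENat.recTopCoe with
    | top =>
      exfalso
      have h3 : (((⊤ : ℕ∞)) : WithBot ℕ∞) ≤ ((n : ℕ∞) : WithBot ℕ∞) := h1
      rw [WithBot.coe_le_coe] at h3
      simp at h3
    | coe a =>
      have h3 : a ≤ n := by exact_mod_cast h1
      refine ⟨n - a, ?_⟩
      have h4 : a + (n - a) = n := by omega
      have h5 : (((a + (n - a) : ℕ)) : WithBot ℕ∞) = (n : ℕ) := by rw [h4]
      rw [Nat.cast_add] at h5
      exact h5

/-- **The upper bound over an arbitrary field.** -/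
theorem bound_field {F : Type} [Field F] {m d r : ℕ} (hr : 1 ≤ r)
    (f : Fin r → MvPolynomial (Fin (m + 1)) F) (hli : LinearIndependent F f)
    (hhom : ∀ i, (f i).IsHomogeneous d) :
    r ≤ Cnt (fun j : Fin m => numComp (Ideal.span (Set.range f)) (j.1 + 1)) d := by
  classical
  let K := AlgebraicClosure F
  let I := Ideal.span (Set.range f)
  have hIhom : I.IsHomogeneous (homogeneousSubmodule (Fin (m + 1)) F) := by
    apply Ideal.homogeneous_span
    rintro _ ⟨i, rfl⟩
    exact ⟨d, hhom i⟩
  have hfin : Finite I.minimalPrimes :=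
    (Ideal.finite_minimalPrimes_of_isNoetherianRing _ I).to_subtype
  have hover : ∀ P : I.minimalPrimes, ∃ Q : Ideal (MvPolynomial (Fin (m + 1)) K), Q.IsPrime ∧
      HC Q ∧ (∀ p, map (algebraMap F K) p ∈ Q ↔ p ∈ P.1) ∧
      ringKrullDim (MvPolynomial (Fin (m + 1)) K ⧸ Q) =
        ringKrullDim (MvPolynomial (Fin (m + 1)) F ⧸ P.1) := fun P =>
    exists_over F K P.1 P.2.1.1 (HC_minimalPrime hIhom P.2)
  choose Q hQ1 hQ2 hQ3 hQ4 using hover
  have hcod : ∀ P : I.minimalPrimes, ∃ c : ℕ,
      ringKrullDim (MvPolynomial (Fin (m + 1)) F ⧸ P.1) + (c : ℕ) = ((m + 1 : ℕ) : ℕ) := fun P =>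
    exists_codim P.1 P.2.1.1.ne_top
  choose c hc using hcod
  have hf0 : f ⟨0, hr⟩ ≠ 0 := hli.ne_zero _
  have hc1 : ∀ P, 1 ≤ c P := by
    intro P
    by_contra hcon
    have h0 : c P = 0 := by omega
    have h1 := hc P
    rw [h0] at h1
    -- then `P = 0`
    have hPb : P.1 ≠ ⊥ := by
      intro h
      have h2 : f ⟨0, hr⟩ ∈ P.1 := P.2.1.2 (Ideal.subset_span ⟨_, rfl⟩)
      rw [h] at h2
      exact hf0 h2
    obtain ⟨x, hx, hx0⟩ := Submodule.exists_mem_ne_zero_of_ne_bot hPb
    have h2 : ringKrullDim (MvPolynomial (Fin (m + 1)) F ⧸ Ideal.span {x}) + 1 ≤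
        ringKrullDim (MvPolynomial (Fin (m + 1)) F) :=
      ringKrullDim_quotient_succ_le_of_nonZeroDivisor (mem_nonZeroDivisors_of_ne_zero hx0)
    have h3 : ringKrullDim (MvPolynomial (Fin (m + 1)) F ⧸ P.1) ≤
        ringKrullDim (MvPolynomial (Fin (m + 1)) F ⧸ Ideal.span {x}) :=
      ringKrullDim_le_of_surjective
        (Ideal.Quotient.factor ((Ideal.span_singleton_le_iff_mem _).2 hx))
        (Ideal.Quotient.factor_surjective _)
    rw [dim_poly] at h2
    obtain ⟨a, ha1, ha2⟩ := wb_nat h1
    rw [ha1] at h3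
    have h4 : ((a : ℕ) : WithBot ℕ∞) + 1 ≤ ((m + 1 : ℕ) : WithBot ℕ∞) :=
      (add_le_add_left h3 1).trans h2
    have h5 : a + 1 ≤ m + 1 := by exact_mod_cast h4
    omega
  let W : Submodule K (MvPolynomial (Fin (m + 1)) K) :=
    Submodule.span K (Set.range fun i => map (algebraMap F K) (f i))
  have hWr : Module.finrank K W = r := by
    have h1 := finrank_span_eq_card (linearIndependent_map F K f hli)
    rwa [Fintype.card_fin] at h1
  have hW : W ≤ homogeneousSubmodule (Fin (m + 1)) K d := by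
    rw [Submodule.span_le]
    rintro _ ⟨i, rfl⟩
    exact (hhom i).map _
  have hWQ : ∀ P, ∀ G ∈ W, G ∈ Q P := by
    intro P G hG
    induction hG using Submodule.span_induction with
    | mem x hx =>
      obtain ⟨i, rfl⟩ := hx
      rw [hQ3]
      exact P.2.1.2 (Ideal.subset_span ⟨i, rfl⟩)
    | zero => exact (Q P).zero_mem
    | add x y _ _ hx hy => exact (Q P).add_mem hx hy
    | smul a x _ hx =>
      rw [smul_eq_C_mul]
      exact (Q P).mul_mem_left _ hx
  have hinc : ∀ P P', Q P ≤ Q P' → P = P' := by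
    intro P P' h
    have h1 : P.1 ≤ P'.1 := by
      intro p hp
      rw [← hQ3] at hp ⊢
      exact h hp
    exact Subtype.ext (le_antisymm h1 (P'.2.2 P.2.1 h1))
  have h1 := bound K m I.minimalPrimes Q c hQ1 hQ2 hinc hc1 (fun P => by
    rw [hQ4]
    exact hc P) d W hW hWQ
  rw [hWr] at h1
  refine h1.trans (le_of_eq ?_)
  congr 1
  funext j
  rw [numComp]
  refine Nat.card_congr
    { toFun := fun i => ⟨i.1.1, i.1.2, by
        have h2 := hc i.1
        rw [i.2] at h2
        exact h2⟩
      invFun := fun P => ⟨⟨P.1, P.2.1⟩, by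
        have h2 := hc ⟨P.1, P.2.1⟩
        obtain ⟨a, ha1, ha2⟩ := wb_nat h2
        obtain ⟨b, hb1, hb2⟩ := wb_nat P.2.2
        rw [ha1] at hb1
        have h3 : a = b := by exact_mod_cast hb1
        omega⟩
      left_inv := fun i => rfl
      right_inv := fun P => rfl }

end Pool.Agent.H294R3
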