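import Mathlib
import Pool.Agent.H294R3.BaseChange

/-!
# The extremal configuration of linear subspaces
-/

open MvPolynomial

namespace Pool.Agent.H294R3

variable {F : Type} [Field F] {m : ℕ}

/-- the linear forms `x_i - c_k x_m` for `i < m`, and `x_m` -/
noncomputable def lin (c : ℕ → F) (i : Fin (m + 1)) (k : ℕ) : MvPolynomial (Fin (m + 1)) F :=
  if i = Fin.last m then X i else X i - C (c k) * X (Fin.last m)

/-- the product of linear forms replacing a monomial -/
noncomputable def gp (c : ℕ → F) (a : Fin (m + 1) → ℕ) : MvPolynomial (Fin (m + 1)) F :=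
  ∏ i, ∏ k ∈ Finset.range (a i), lin c i k

theorem lin_hom (c : ℕ → F) (i : Fin (m + 1)) (k : ℕ) : (lin c i k).IsHomogeneous 1 := by
  rw [lin]
  split_ifs
  · exact isHomogeneous_X _ _
  · exact (isHomogeneous_X _ _).sub (isHomogeneous_C_mul_X _ _)

theorem gp_hom (c : ℕ → F) (a : Fin (m + 1) → ℕ) : (gp c a).IsHomogeneous (∑ i, a i) := by
  refine IsHomogeneous.prod _ _ _ fun i _ => ?_
  have h := IsHomogeneous.prod (Finset.range (a i)) (fun k => lin c i k) (fun _ => 1)
    fun k _ => lin_hom c i k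
  rwa [Finset.sum_const, Finset.card_range, smul_eq_mul, mul_one] at h

/-- the points -/
def pt (c : ℕ → F) (b : Fin (m + 1) → ℕ) : Fin (m + 1) → F :=
  fun i => if i = Fin.last m then 1 else c (b i)

theorem eval_lin (c : ℕ → F) (b : Fin (m + 1) → ℕ) (i : Fin (m + 1)) (k : ℕ) :
    eval (pt c b) (lin c i k) = if i = Fin.last m then 1 else c (b i) - c k := by
  rw [lin]
  split_ifs with h
  · rw [eval_X, pt, if_pos h]
  · rw [map_sub, map_mul, eval_C, eval_X, eval_X, pt, if_neg h]
    simp [pt]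

theorem eval_gp_ne {c : ℕ → F} {d : ℕ} (hc : ∀ i ≤ d, ∀ j ≤ d, c i = c j → i = j)
    {a b : Fin (m + 1) → ℕ} (ha : ∑ i, a i = d) (hb : ∑ i, b i = d) :
    eval (pt c b) (gp c a) ≠ 0 ↔ ∀ i : Fin (m + 1), i ≠ Fin.last m → a i ≤ b i := by
  have ha' : ∀ i, a i ≤ d := fun i => by
    rw [← ha]
    exact Finset.single_le_sum (f := a) (fun j _ => Nat.zero_le _) (Finset.mem_univ i)
  have hb' : ∀ i, b i ≤ d := fun i => by
    rw [← hb]
    exact Finset.single_le_sum (f := b) (fun j _ => Nat.zero_le _) (Finset.mem_univ i)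
  rw [gp, map_prod, Finset.prod_ne_zero_iff]
  refine forall_congr' fun i => ?_
  constructor
  · intro h hi
    by_contra hcon
    apply h (Finset.mem_univ i)
    rw [map_prod]
    refine Finset.prod_eq_zero (i := b i) (Finset.mem_range.2 (by omega)) ?_
    rw [eval_lin, if_neg hi, sub_self]
  · intro h _
    rw [map_prod, Finset.prod_ne_zero_iff]
    intro k hk
    rw [Finset.mem_range] at hk
    rw [eval_lin]
    split_ifs with hi
    · exact one_ne_zero
    · intro h0
      have h1 := hc (b i) (hb' i) k (by have := ha' i; omega) (sub_eq_zero.1 h0)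
      have h2 := h hi
      omega

theorem gp_li {c : ℕ → F} {d : ℕ} (hc : ∀ i ≤ d, ∀ j ≤ d, c i = c j → i = j) {ι : Type}
    [Fintype ι] (e : ι → Fin (m + 1) → ℕ) (he : Function.Injective e)
    (hs : ∀ t, ∑ i, e t i = d) : LinearIndependent F fun t => gp c (e t) := by
  classical
  rw [Fintype.linearIndependent_iff]
  intro l hl t1
  by_contra ht1
  obtain ⟨t0, ht0, hmin⟩ := Finset.exists_min_image (Finset.univ.filter fun t => l t ≠ 0)
    (fun t => ∑ i : Fin m, e t i.castSucc) ⟨t1, by simpa using ht1⟩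
  rw [Finset.mem_filter] at ht0
  have h1 := congrArg (eval (pt c (e t0))) hl
  rw [map_sum, map_zero, Finset.sum_eq_single t0] at h1
  · rw [smul_eval] at h1
    rcases mul_eq_zero.1 h1 with h2 | h2
    · exact ht0.2 h2
    · exact (eval_gp_ne hc (hs t0) (hs t0)).2 (fun _ _ => le_rfl) h2
  · intro t _ ht
    rw [smul_eval]
    by_cases hlt : l t = 0
    · rw [hlt, zero_mul]
    have h2 := hmin t (by simpa using hlt)
    have h3 : ¬ ∀ i : Fin (m + 1), i ≠ Fin.last m → e t i ≤ e t0 i := by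
      intro h4
      apply ht
      apply he
      have h5 : ∀ i : Fin m, e t i.castSucc = e t0 i.castSucc := by
        by_contra hcon
        push Not at hcon
        obtain ⟨i, hi⟩ := hcon
        have h6 : ∑ i : Fin m, e t i.castSucc < ∑ i : Fin m, e t0 i.castSucc := by
          refine Finset.sum_lt_sum (fun i _ => h4 _ (Fin.castSucc_lt_last i).ne) ⟨i, Finset.mem_univ i, ?_⟩
          exact lt_of_le_of_ne (h4 _ (Fin.castSucc_lt_last i).ne) hi
        omega
      funext i
      refine Fin.lastCases ?_ (fun j => h5 j) i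
      have h7 := hs t
      have h8 := hs t0
      rw [Fin.sum_univ_castSucc] at h7 h8
      have h9 : ∑ i : Fin m, e t i.castSucc = ∑ i : Fin m, e t0 i.castSucc :=
        Finset.sum_congr rfl fun i _ => h5 i
      omega
    rw [← eval_gp_ne hc (hs t) (hs t0), not_not] at h3
    rw [h3, mul_zero]
  · intro h
    exact absurd (Finset.mem_univ _) h

/-- the variables remaining on the linear subspace -/
abbrev Rem (j : Fin m) : Type := {i : Fin (m + 1) // j.castSucc < i}

/-- the last variable -/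
def lastR (j : Fin m) : Rem j := ⟨Fin.last m, Fin.castSucc_lt_last j⟩

/-- the restriction of polynomials to the linear subspace with the equations
`x_i = c_{ν_i} x_m` for `i < j`, and `x_j = c_k x_m` -/
noncomputable def phi (c : ℕ → F) (ν : Fin (m + 1) → ℕ) (j : Fin m) (k : ℕ) :
    MvPolynomial (Fin (m + 1)) F →ₐ[F] MvPolynomial (Rem j) F :=
  aeval fun i => if h : j.castSucc < i then X ⟨i, h⟩ else
    if i = j.castSucc then C (c k) * X (lastR j) else C (c (ν i)) * X (lastR j)

/-- the linear prime ideals -/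
noncomputable def LL (c : ℕ → F) (ν : Fin (m + 1) → ℕ) (j : Fin m) (k : ℕ) :
    Ideal (MvPolynomial (Fin (m + 1)) F) := RingHom.ker (phi c ν j k)

theorem phi_gt (c : ℕ → F) (ν : Fin (m + 1) → ℕ) (j : Fin m) (k : ℕ) (i : Fin (m + 1))
    (h : j.castSucc < i) : phi c ν j k (X i) = X ⟨i, h⟩ := by
  rw [phi, aeval_X, dif_pos h]

theorem phi_eq (c : ℕ → F) (ν : Fin (m + 1) → ℕ) (j : Fin m) (k : ℕ) :
    phi c ν j k (X j.castSucc) = C (c k) * X (lastR j) := by
  rw [phi, aeval_X, dif_neg (lt_irrefl _), if_pos rfl]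

theorem phi_lt (c : ℕ → F) (ν : Fin (m + 1) → ℕ) (j : Fin m) (k : ℕ) (i : Fin (m + 1))
    (h : i < j.castSucc) : phi c ν j k (X i) = C (c (ν i)) * X (lastR j) := by
  rw [phi, aeval_X, dif_neg h.not_gt, if_neg h.ne]

theorem phi_last (c : ℕ → F) (ν : Fin (m + 1) → ℕ) (j : Fin m) (k : ℕ) :
    phi c ν j k (X (Fin.last m)) = X (lastR j) := phi_gt c ν j k _ (Fin.castSucc_lt_last j)

theorem LL_prime (c : ℕ → F) (ν : Fin (m + 1) → ℕ) (j : Fin m) (k : ℕ) :
    (LL c ν j k).IsPrime := RingHom.ker_isPrime _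

theorem phi_surj (c : ℕ → F) (ν : Fin (m + 1) → ℕ) (j : Fin m) (k : ℕ) :
    Function.Surjective (phi c ν j k) := by
  intro q
  refine ⟨rename Subtype.val q, ?_⟩
  have h : (phi c ν j k).comp (rename Subtype.val) = AlgHom.id F (MvPolynomial (Rem j) F) := by
    apply MvPolynomial.algHom_ext
    rintro ⟨i, hi⟩
    rw [AlgHom.comp_apply, rename_X, phi_gt c ν j k i hi, AlgHom.id_apply]
  exact DFunLike.congr_fun h q

theorem LL_dim (c : ℕ → F) (ν : Fin (m + 1) → ℕ) (j : Fin m) (k : ℕ) :
    ringKrullDim (MvPolynomial (Fin (m + 1)) F ⧸ LL c ν j k) + ((j.1 + 1 : ℕ)) =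
      ((m + 1 : ℕ) : WithBot ℕ∞) := by
  have h1 : ringKrullDim (MvPolynomial (Fin (m + 1)) F ⧸ LL c ν j k) =
      ringKrullDim (MvPolynomial (Rem j) F) :=
    ringKrullDim_eq_of_ringEquiv (RingHom.quotientKerEquivOfSurjective (phi_surj c ν j k))
  have h2 : Nat.card (Rem j) = m - j.1 := by
    rw [Nat.card_eq_fintype_card, Fintype.card_subtype]
    have h3 : (Finset.univ.filter fun i : Fin (m + 1) => j.castSucc < i) =
        Finset.Ioi j.castSucc := by
      ext i
      simp
    rw [h3, Fin.card_Ioi]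
    simp
  rw [h1, MvPolynomial.ringKrullDim_of_isNoetherianRing, ringKrullDim_eq_zero_of_field, h2, zero_add]
  have h4 : (m - j.1) + (j.1 + 1) = m + 1 := by have := j.2; omega
  have h5 : (((m - j.1) + (j.1 + 1) : ℕ) : WithBot ℕ∞) = ((m + 1 : ℕ) : ℕ) := by rw [h4]
  rw [Nat.cast_add] at h5
  exact h5

theorem lin_castSucc (c : ℕ → F) (i : Fin m) (k : ℕ) :
    lin c i.castSucc k = X i.castSucc - C (c k) * X (Fin.last m) := by
  rw [lin, if_neg (Fin.castSucc_lt_last i).ne]

/-- a prime containing the equations contains the linear prime -/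
theorem LL_le {c : ℕ → F} {ν : Fin (m + 1) → ℕ} {j : Fin m} {k : ℕ}
    {P : Ideal (MvPolynomial (Fin (m + 1)) F)}
    (h1 : ∀ i : Fin m, i < j → lin c i.castSucc (ν i.castSucc) ∈ P)
    (h2 : lin c j.castSucc k ∈ P) : LL c ν j k ≤ P := by
  intro f hf
  have hf' : phi c ν j k f = 0 := hf
  have h3 : Ideal.Quotient.mkₐ F P = ((Ideal.Quotient.mkₐ F P).comp
      (rename Subtype.val)).comp (phi c ν j k) := by
    apply MvPolynomial.algHom_ext
    intro i
    rw [AlgHom.comp_apply]
    refine Fin.lastCases ?_ (fun i => ?_) i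
    · rw [phi_last, AlgHom.comp_apply, rename_X]
      rfl
    · rcases lt_trichotomy i j with hi | hi | hi
      · rw [phi_lt c ν j k _ (Fin.castSucc_lt_castSucc_iff.2 hi), AlgHom.comp_apply, map_mul,
          rename_X, rename_C]
        have h4 := h1 i hi
        rw [lin_castSucc] at h4
        exact Ideal.Quotient.eq.2 h4
      · subst hi
        rw [phi_eq, AlgHom.comp_apply, map_mul, rename_X, rename_C]
        rw [lin_castSucc] at h2
        exact Ideal.Quotient.eq.2 h2
      · rw [phi_gt c ν j k _ (Fin.castSucc_lt_castSucc_iff.2 hi), AlgHom.comp_apply, rename_X]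
  have h4 : Ideal.Quotient.mkₐ F P f = 0 := by
    rw [h3, AlgHom.comp_apply, hf', map_zero]
  exact Ideal.Quotient.eq_zero_iff_mem.1 h4

theorem lin_mem_LL (c : ℕ → F) (ν : Fin (m + 1) → ℕ) (j : Fin m) (k : ℕ) :
    lin c j.castSucc k ∈ LL c ν j k := by
  change phi c ν j k (lin c j.castSucc k) = 0
  rw [lin_castSucc, map_sub, map_mul, phi_eq, phi_last, algHom_C, algebraMap_eq, sub_self]

theorem lin_mem_LL' (c : ℕ → F) (ν : Fin (m + 1) → ℕ) (j : Fin m) (k : ℕ) (i : Fin m)
    (hi : i < j) : lin c i.castSucc (ν i.castSucc) ∈ LL c ν j k := by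
  change phi c ν j k (lin c i.castSucc (ν i.castSucc)) = 0
  rw [lin_castSucc, map_sub, map_mul, phi_lt c ν j k _ (Fin.castSucc_lt_castSucc_iff.2 hi),
    phi_last, algHom_C, algebraMap_eq, sub_self]

theorem LL_inj {c : ℕ → F} {d : ℕ} (hc : ∀ i ≤ d, ∀ j ≤ d, c i = c j → i = j)
    {ν : Fin (m + 1) → ℕ} (hν : ∑ i, ν i = d) {j j' : Fin m} {k k' : ℕ}
    (hk : k < ν j.castSucc) (hk' : k' < ν j'.castSucc) (h : LL c ν j k ≤ LL c ν j' k') :
    j = j' ∧ k = k' := by
  have hν' : ∀ i, ν i ≤ d := fun i => by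
    rw [← hν]
    exact Finset.single_le_sum (f := ν) (fun j _ => Nat.zero_le _) (Finset.mem_univ i)
  have h1 : phi c ν j' k' (lin c j.castSucc k) = 0 := h (lin_mem_LL c ν j k)
  rw [lin_castSucc, map_sub, map_mul, phi_last, algHom_C, algebraMap_eq] at h1
  have hX : ∀ x y : F, C x * X (lastR j') - C y * X (lastR j') = (0 : MvPolynomial (Rem j') F) →
      x = y := by
    intro x y hxy
    have h2 := congrArg (eval fun _ => (1 : F)) hxy
    simpa [sub_eq_zero] using h2
  rcases lt_trichotomy j j' with hj | hj | hj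
  · rw [phi_lt c ν j' k' _ (Fin.castSucc_lt_castSucc_iff.2 hj)] at h1
    have h2 := hc _ (hν' _) k (by have := hν' j.castSucc; omega) (hX _ _ h1)
    omega
  · subst hj
    rw [phi_eq] at h1
    have h2 := hc _ (by have := hν' j.castSucc; omega) k (by have := hν' j.castSucc; omega)
      (hX _ _ h1)
    exact ⟨rfl, h2.symm⟩
  · exfalso
    rw [phi_gt c ν j' k' _ (Fin.castSucc_lt_castSucc_iff.2 hj)] at h1
    have h2 := congrArg (eval fun i : Rem j' => if i = lastR j' then (0 : F) else 1) h1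
    rw [map_sub, map_mul, eval_X, eval_X, eval_C, map_zero, if_pos rfl, mul_zero, sub_zero,
      if_neg] at h2
    · exact one_ne_zero h2
    · intro h3
      exact (Fin.castSucc_lt_last j).ne (congrArg Subtype.val h3)

end Pool.Agent.H294R3
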