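import Mathlib
import Pool.Agent.H294R3.Exist

/-!
# The components of the extremal configuration
-/

open MvPolynomial

namespace Pool.Agent.H294R3

variable {F : Type} [Field F] {m : ℕ}

theorem exists_lin_mem {c : ℕ → F} {a : Fin (m + 1) → ℕ} {P : Ideal (MvPolynomial (Fin (m + 1)) F)}
    (hP : P.IsPrime) (h : gp c a ∈ P) : ∃ i, ∃ k < a i, lin c i k ∈ P := by
  rw [gp, hP.prod_mem_iff] at h
  obtain ⟨i, -, hi⟩ := h
  rw [hP.prod_mem_iff] at hi
  obtain ⟨k, hk, hik⟩ := hi
  exact ⟨i, k, Finset.mem_range.1 hk, hik⟩

theorem lin_last_mem {c : ℕ → F} {k : ℕ} {P : Ideal (MvPolynomial (Fin (m + 1)) F)}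
    (h : lin c (Fin.last m) k ∈ P) : X (Fin.last m) ∈ P := by
  rwa [lin, if_pos rfl] at h

theorem X_mem_of {c : ℕ → F} {k : ℕ} {P : Ideal (MvPolynomial (Fin (m + 1)) F)} {i : Fin m}
    (h : lin c i.castSucc k ∈ P) (hl : X (Fin.last m) ∈ P) : X i.castSucc ∈ P := by
  rw [lin_castSucc] at h
  have h1 := P.add_mem h (P.mul_mem_left (C (c k)) hl)
  rwa [sub_add_cancel] at h1

theorem lin_mem_of {c : ℕ → F} (k : ℕ) {P : Ideal (MvPolynomial (Fin (m + 1)) F)} {i : Fin m}
    (h : X i.castSucc ∈ P) (hl : X (Fin.last m) ∈ P) : lin c i.castSucc k ∈ P := by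
  rw [lin_castSucc]
  exact P.sub_mem h (P.mul_mem_left _ hl)

/-- the ideal of the configuration -/
noncomputable def II (c : ℕ → F) (d : ℕ) (ν : Fin (m + 1) → ℕ) :
    Ideal (MvPolynomial (Fin (m + 1)) F) :=
  Ideal.span {p | ∃ a : Fin (m + 1) → ℕ, ∑ i, a i = d ∧ toLex ν ≤ toLex a ∧ p = gp c a}

/-- the primes containing the ideal of the configuration -/
theorem prime_cases {c : ℕ → F} {d : ℕ} {ν : Fin (m + 1) → ℕ} (hν : ∑ i, ν i = d)
    {P : Ideal (MvPolynomial (Fin (m + 1)) F)} (hP : P.IsPrime) (hI : II c d ν ≤ P) :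
    (∃ (j : Fin m) (k : ℕ), k < ν j.castSucc ∧ LL c ν j k ≤ P) ∨ ∀ i, X i ∈ P := by
  classical
  by_cases h0 : ∃ (j : Fin m) (k : ℕ), k < ν j.castSucc ∧ LL c ν j k ≤ P
  · exact Or.inl h0
  right
  push Not at h0
  have hmem : ∀ a : Fin (m + 1) → ℕ, ∑ i, a i = d → toLex ν ≤ toLex a → gp c a ∈ P :=
    fun a h1 h2 => hI (Ideal.subset_span ⟨a, h1, h2, rfl⟩)
  have hnot : ∀ (j : Fin m), (∀ i : Fin m, i < j → lin c i.castSucc (ν i.castSucc) ∈ P) →
      ∀ k < ν j.castSucc, lin c j.castSucc k ∉ P := by
    intro j hj k hk hcon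
    exact h0 j k hk (LL_le hj hcon)
  have key : ∀ n : ℕ, ∀ j : Fin m, j.1 = n → lin c j.castSucc (ν j.castSucc) ∈ P := by
    intro n
    induction n using Nat.strong_induction_on with
    | _ n ih =>
      intro j hjn
      have hH : ∀ i : Fin m, i < j → lin c i.castSucc (ν i.castSucc) ∈ P := by
        intro i hi
        exact ih i.1 (by rw [← hjn]; exact hi) i rfl
      have hH' : ∀ i : Fin m, i ≤ j → ∀ k < ν i.castSucc, lin c i.castSucc k ∉ P := by
        intro i hi
        exact hnot i fun i' hi' => hH i' (lt_of_lt_of_le hi' hi)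
      -- the partial sum
      set s : ℕ := ∑ i : Fin (m + 1), (if i ≤ j.castSucc then ν i else 0) with hs
      have hsd : s ≤ d := by
        rw [hs, ← hν]
        refine Finset.sum_le_sum fun i _ => ?_
        split_ifs
        · exact le_rfl
        · exact Nat.zero_le _
      rcases lt_or_eq_of_le hsd with hlt | heq
      · -- the first test vector
        have hlast : ¬ (Fin.last m ≤ j.castSucc) := not_le.2 (Fin.castSucc_lt_last j)
        let a1 : Fin (m + 1) → ℕ := fun i =>
          (if i ≤ j.castSucc then ν i else 0) + (if i = j.castSucc then 1 else 0) +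
            (if i = Fin.last m then d - s - 1 else 0)
        have ha1 : ∑ i, a1 i = d := by
          simp only [a1]
          rw [Finset.sum_add_distrib, Finset.sum_add_distrib, Finset.sum_ite_eq',
            Finset.sum_ite_eq', if_pos (Finset.mem_univ _), if_pos (Finset.mem_univ _), ← hs]
          omega
        have hlt1 : toLex ν ≤ toLex a1 := by
          apply le_of_lt
          refine ⟨j.castSucc, fun i hi => ?_, ?_⟩
          · have h3 : i ≠ Fin.last m := (hi.trans (Fin.castSucc_lt_last j)).ne
            change ν i = a1 i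
            simp only [a1]
            rw [if_pos hi.le, if_neg hi.ne, if_neg h3]
            rfl
          · change ν j.castSucc < a1 j.castSucc
            simp only [a1]
            rw [if_pos le_rfl, if_pos trivial, if_neg (Fin.castSucc_lt_last j).ne]
            omega
        obtain ⟨i, k, hk, hik⟩ := exists_lin_mem hP (hmem a1 ha1 hlt1)
        have hXlast : lin c j.castSucc (ν j.castSucc) ∈ P ∨ X (Fin.last m) ∈ P := by
          rcases eq_or_ne i (Fin.last m) with hil | hil
          · right
            subst hil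
            exact lin_last_mem hik
          · left
            simp only [a1] at hk
            rw [if_neg hil, add_zero] at hk
            rcases lt_trichotomy i j.castSucc with hij | hij | hij
            · exfalso
              rw [if_pos hij.le, if_neg hij.ne, add_zero] at hk
              obtain ⟨i', rfl⟩ := Fin.exists_castSucc_eq.2 hil
              exact hH' i' (Fin.castSucc_le_castSucc_iff.1 hij.le) k hk hik
            · subst hij
              rw [if_pos le_rfl, if_pos rfl] at hk
              rcases Nat.lt_succ_iff_lt_or_eq.1 hk with hk1 | hk1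
              · exact absurd hik (hH' j le_rfl k hk1)
              · rw [← hk1]
                exact hik
            · exfalso
              rw [if_neg (not_le.2 hij), if_neg hij.ne'] at hk
              omega
        rcases hXlast with h4 | h4
        · exact h4
        -- the second test vector
        let a2 : Fin (m + 1) → ℕ := fun i =>
          (if i ≤ j.castSucc then ν i else 0) + (if i = j.castSucc then d - s else 0)
        have ha2 : ∑ i, a2 i = d := by
          simp only [a2]
          rw [Finset.sum_add_distrib, Finset.sum_ite_eq', if_pos (Finset.mem_univ _), ← hs]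
          omega
        have hlt2 : toLex ν ≤ toLex a2 := by
          apply le_of_lt
          refine ⟨j.castSucc, fun i hi => ?_, ?_⟩
          · change ν i = a2 i
            simp only [a2]
            rw [if_pos hi.le, if_neg hi.ne]
            rfl
          · change ν j.castSucc < a2 j.castSucc
            simp only [a2]
            rw [if_pos le_rfl, if_pos trivial]
            omega
        obtain ⟨i, k, hk, hik⟩ := exists_lin_mem hP (hmem a2 ha2 hlt2)
        simp only [a2] at hk
        rcases lt_trichotomy i j.castSucc with hij | hij | hij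
        · exfalso
          rw [if_pos hij.le, if_neg hij.ne, add_zero] at hk
          obtain ⟨i', rfl⟩ := Fin.exists_castSucc_eq.2 (hij.trans (Fin.castSucc_lt_last j)).ne
          exact hH' i' (Fin.castSucc_le_castSucc_iff.1 hij.le) k hk hik
        · subst hij
          exact lin_mem_of _ (X_mem_of hik h4) h4
        · exfalso
          rw [if_neg (not_le.2 hij), if_neg hij.ne'] at hk
          omega
      · exfalso
        obtain ⟨i, k, hk, hik⟩ := exists_lin_mem hP (hmem ν hν le_rfl)
        have hi : i ≤ j.castSucc := by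
          by_contra hcon
          have h5 : s + ν i ≤ ∑ i, ν i := by
            rw [hs]
            have h6 : ν i = ∑ i', (if i' = i then ν i else 0) := by
              rw [Finset.sum_ite_eq', if_pos (Finset.mem_univ _)]
            rw [h6, ← Finset.sum_add_distrib]
            refine Finset.sum_le_sum fun i' _ => ?_
            rcases eq_or_ne i' i with rfl | hne
            · rw [if_neg hcon, if_pos rfl, zero_add]
            · rw [if_neg hne, add_zero]
              split_ifs
              · exact le_rfl
              · exact Nat.zero_le _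
          omega
        obtain ⟨i', rfl⟩ := Fin.exists_castSucc_eq.2 (lt_of_le_of_lt hi (Fin.castSucc_lt_last j)).ne
        exact hH' i' (Fin.castSucc_le_castSucc_iff.1 hi) k hk hik
  -- conclusion
  have hlast : X (Fin.last m) ∈ P := by
    obtain ⟨i, k, hk, hik⟩ := exists_lin_mem hP (hmem ν hν le_rfl)
    rcases eq_or_ne i (Fin.last m) with hil | hil
    · subst hil
      exact lin_last_mem hik
    · exfalso
      obtain ⟨i', rfl⟩ := Fin.exists_castSucc_eq.2 hil
      exact hnot i' (fun i'' _ => key i''.1 i'' rfl) k hk hik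
  intro i
  refine Fin.lastCases hlast (fun i => ?_) i
  exact X_mem_of (key i.1 i rfl) hlast

/-- the configuration contains the linear subspaces -/
theorem II_le (c : ℕ → F) (d : ℕ) (ν : Fin (m + 1) → ℕ) (j : Fin m) (k : ℕ)
    (hk : k < ν j.castSucc) : II c d ν ≤ LL c ν j k := by
  rw [II, Ideal.span_le]
  rintro _ ⟨a, -, ha, rfl⟩
  have key : ∀ (i : Fin (m + 1)) (l : ℕ), l < a i → lin c i l ∈ LL c ν j k →
      gp c a ∈ LL c ν j k := by
    intro i l hl h
    rw [gp, (LL_prime c ν j k).prod_mem_iff]
    refine ⟨i, Finset.mem_univ i, ?_⟩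
    rw [(LL_prime c ν j k).prod_mem_iff]
    exact ⟨l, Finset.mem_range.2 hl, h⟩
  rcases eq_or_lt_of_le ha with heq | hlt
  · have h1 : ν = a := toLex.injective heq
    rw [← h1]
    rw [h1] at hk
    have := key j.castSucc k hk (lin_mem_LL c ν j k)
    rwa [← h1] at this
  · obtain ⟨i0, hi1, hi2⟩ := hlt
    have hi1' : ∀ i < i0, ν i = a i := hi1
    have hi2' : ν i0 < a i0 := hi2
    rcases lt_or_ge i0 j.castSucc with h1 | h1
    · obtain ⟨i', rfl⟩ := Fin.exists_castSucc_eq.2 (h1.trans (Fin.castSucc_lt_last j)).ne
      exact key _ _ hi2' (lin_mem_LL' c ν j k i' (Fin.castSucc_lt_castSucc_iff.1 h1))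
    · refine key j.castSucc k ?_ (lin_mem_LL c ν j k)
      rcases eq_or_lt_of_le h1 with h2 | h2
      · rw [h2]
        rw [h2] at hk
        omega
      · rw [← hi1' _ h2]
        exact hk

theorem X_last_not_mem (c : ℕ → F) (ν : Fin (m + 1) → ℕ) (j : Fin m) (k : ℕ) :
    X (Fin.last m) ∉ LL c ν j k := by
  intro h
  have h1 : phi c ν j k (X (Fin.last m)) = 0 := h
  rw [phi_last] at h1
  exact X_ne_zero _ h1

/-- the number of the components of the configuration -/
theorem numComp_II {c : ℕ → F} {d : ℕ} (hc : ∀ i ≤ d, ∀ j ≤ d, c i = c j → i = j)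
    {ν : Fin (m + 1) → ℕ} (hν : ∑ i, ν i = d) (j : Fin m) :
    numComp (II c d ν) (j.1 + 1) = ν j.castSucc := by
  have hmin : ∀ (j : Fin m) (k : ℕ), k < ν j.castSucc → LL c ν j k ∈ (II c d ν).minimalPrimes := by
    intro j k hk
    refine ⟨⟨LL_prime c ν j k, II_le c d ν j k hk⟩, ?_⟩
    rintro P ⟨hP1, hP2⟩ hP3
    rcases prime_cases hν hP1 hP2 with ⟨j', k', hk', h⟩ | h
    · obtain ⟨rfl, rfl⟩ := LL_inj hc hν hk' hk (h.trans hP3)
      exact h
    · exact absurd (hP3 (h (Fin.last m))) (X_last_not_mem c ν j k)
  have e : Fin (ν j.castSucc) ≃ {P : Ideal (MvPolynomial (Fin (m + 1)) F) //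
      P ∈ (II c d ν).minimalPrimes ∧
      ringKrullDim (MvPolynomial (Fin (m + 1)) F ⧸ P) + ((j.1 + 1 : ℕ)) =
        ((m + 1 : ℕ) : WithBot ℕ∞)} := by
    refine Equiv.ofBijective (fun k => ⟨LL c ν j k, hmin j k k.2, LL_dim c ν j k⟩) ⟨?_, ?_⟩
    · intro k k' hkk'
      have h1 : LL c ν j k = LL c ν j k' := congrArg Subtype.val hkk'
      exact Fin.ext (LL_inj hc hν k.2 k'.2 h1.le).2
    · rintro ⟨P, hP1, hP2⟩
      rcases prime_cases hν hP1.1.1 hP1.1.2 with ⟨j', k', hk', h⟩ | h
      · have h1 : P = LL c ν j' k' :=
          le_antisymm (hP1.2 (hmin j' k' hk').1 h) h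
        have h2 := LL_dim c ν j' k'
        rw [← h1] at h2
        obtain ⟨a, ha1, ha2⟩ := wb_nat hP2
        obtain ⟨b, hb1, hb2⟩ := wb_nat h2
        rw [ha1] at hb1
        have h3 : a = b := by exact_mod_cast hb1
        have h4 : j = j' := by
          apply Fin.ext
          omega
        subst h4
        exact ⟨⟨k', hk'⟩, Subtype.ext h1.symm⟩
      · exfalso
        -- `P` is the irrelevant ideal
        have h1 : RingHom.ker (eval (0 : Fin (m + 1) → F)) ≤ P := by
          intro f hf
          have h2 : Ideal.Quotient.mk P f = Ideal.Quotient.mk P (C (eval 0 f)) := by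
            clear hf
            induction f using MvPolynomial.induction_on with
            | C a => rw [eval_C]
            | add p q hp hq => rw [map_add, hp, hq, map_add, map_add, map_add]
            | mul_X p i hp =>
              rw [map_mul, map_mul, Ideal.Quotient.eq_zero_iff_mem.2 (h i), mul_zero, eval_X,
                Pi.zero_apply, mul_zero, map_zero, map_zero]
          rw [RingHom.mem_ker.1 hf, map_zero, map_zero] at h2
          exact Ideal.Quotient.eq_zero_iff_mem.1 h2
        have h2 : (RingHom.ker (eval (0 : Fin (m + 1) → F))).IsMaximal :=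
          RingHom.ker_isMaximal_of_surjective _ fun a => ⟨C a, eval_C _⟩
        have h3 : P.IsMaximal := by
          rw [← h2.eq_of_le hP1.1.1.ne_top h1]
          exact h2
        have h4 : ringKrullDim (MvPolynomial (Fin (m + 1)) F ⧸ P) = 0 :=
          ringKrullDim_eq_zero_of_isField ((Ideal.Quotient.maximal_ideal_iff_isField_quotient P).1 h3)
        rw [h4, zero_add] at hP2
        have h5 : j.1 + 1 = m + 1 := by exact_mod_cast hP2
        have := j.2
        omega
  rw [numComp, ← Nat.card_congr e, Nat.card_eq_fintype_card, Fintype.card_fin]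

end Pool.Agent.H294R3
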