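import Mathlib
import Pool.Agent.H294R3.Count

/-!
# The `r`-th exponent vector
-/

namespace Pool.Agent.H294R3

/-- exponent vectors of the monomials of degree `d` in `m + 1` variables -/
def Lam (d m : ℕ) : Set (Fin (m + 1) → ℕ) := {a | ∑ i, a i = d}

theorem init_sum {d m : ℕ} {a : Fin (m + 1) → ℕ} (ha : a ∈ Lam d m) :
    ∑ i : Fin m, a i.castSucc + a (Fin.last m) = d := by
  have h : ∑ i, a i = d := ha
  rwa [Fin.sum_univ_castSucc] at h

theorem lam_ext {d m : ℕ} {a b : Fin (m + 1) → ℕ} (ha : a ∈ Lam d m) (hb : b ∈ Lam d m)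
    (h : ∀ i : Fin m, a i.castSucc = b i.castSucc) : a = b := by
  have h1 := init_sum ha
  have h2 := init_sum hb
  have h3 : ∑ i : Fin m, a i.castSucc = ∑ i : Fin m, b i.castSucc :=
    Finset.sum_congr rfl fun i _ => h i
  funext i
  refine Fin.lastCases ?_ (fun i => h i) i
  omega

theorem lam_le {d m : ℕ} {a b : Fin (m + 1) → ℕ} (ha : a ∈ Lam d m) (hb : b ∈ Lam d m) :
    toLex a ≤ toLex b ↔
      toLex (fun i : Fin m => a i.castSucc) ≤ toLex fun i : Fin m => b i.castSucc := by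
  have key : ∀ {a b : Fin (m + 1) → ℕ}, a ∈ Lam d m → b ∈ Lam d m → toLex a < toLex b →
      toLex (fun i : Fin m => a i.castSucc) < toLex fun i : Fin m => b i.castSucc := by
    intro a b ha hb hab
    obtain ⟨i, hi1, hi2⟩ := hab
    have hi1' : ∀ j < i, a j = b j := hi1
    have hi2' : a i < b i := hi2
    have hil : i ≠ Fin.last m := by
      rintro rfl
      have h1 := init_sum ha
      have h2 := init_sum hb
      have h3 : ∑ i : Fin m, a i.castSucc = ∑ i : Fin m, b i.castSucc :=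
        Finset.sum_congr rfl fun i _ => hi1' _ (Fin.castSucc_lt_last i)
      omega
    obtain ⟨i', rfl⟩ := Fin.exists_castSucc_eq.2 hil
    exact ⟨i', fun j hj => hi1' _ (Fin.castSucc_lt_castSucc_iff.2 hj), hi2'⟩
  constructor
  · intro h
    rcases eq_or_lt_of_le h with h1 | h1
    · have h2 : a = b := toLex.injective h1
      rw [h2]
    · exact (key ha hb h1).le
  · intro h
    by_contra hcon
    exact absurd h (not_le.2 (key hb ha (not_le.1 hcon)))

/-- truncation of the exponent vectors -/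
theorem card_up {d m : ℕ} {ν : Fin (m + 1) → ℕ} (hν : ν ∈ Lam d m) :
    Nat.card {a : Fin (m + 1) → ℕ // ∑ i, a i = d ∧ toLex ν ≤ toLex a} =
      Cnt (fun i : Fin m => ν i.castSucc) d := by
  rw [Cnt, ← Nat.card_coe_set_eq]
  refine Nat.card_congr
    { toFun := fun a => ⟨fun i => a.1 i.castSucc, ?_, ?_⟩
      invFun := fun a => ⟨Fin.snoc a.1 (d - ∑ i, a.1 i), ?_, ?_⟩
      left_inv := ?_
      right_inv := ?_ }
  · have h1 := init_sum (a := a.1) a.2.1
    change ∑ i : Fin m, a.1 i.castSucc ≤ d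
    omega
  · exact (lam_le hν a.2.1).1 a.2.2
  · have h1 := a.2.1
    rw [Fin.sum_univ_castSucc]
    simp only [Fin.snoc_castSucc, Fin.snoc_last]
    omega
  · have h1 := a.2.1
    have h2 : (Fin.snoc a.1 (d - ∑ i, a.1 i) : Fin (m + 1) → ℕ) ∈ Lam d m := by
      change ∑ i, (Fin.snoc a.1 (d - ∑ i, a.1 i) : Fin (m + 1) → ℕ) i = d
      rw [Fin.sum_univ_castSucc]
      simp only [Fin.snoc_castSucc, Fin.snoc_last]
      omega
    rw [lam_le hν h2]
    simp only [Fin.snoc_castSucc]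
    exact a.2.2
  · rintro ⟨a, ha1, ha2⟩
    apply Subtype.ext
    funext i
    refine Fin.lastCases ?_ (fun i => ?_) i
    · simp only [Fin.snoc_last]
      have := init_sum (a := a) ha1
      omega
    · simp only [Fin.snoc_castSucc]
  · rintro ⟨a, ha1, ha2⟩
    apply Subtype.ext
    funext i
    simp only [Fin.snoc_castSucc]

theorem Lam_finite (d m : ℕ) : (Lam d m).Finite := by
  refine (Bx_finite (m + 1) d).subset fun a ha => ?_
  exact le_of_eq ha

theorem card_Lam (d m : ℕ) : (Lam d m).ncard = (m + d).choose d := by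
  classical
  have e : Lam d m ≃ {f : Fin (m + 1) →₀ ℕ // f ∈ Finset.finsuppAntidiag Finset.univ d} :=
    { toFun := fun a => ⟨Finsupp.equivFunOnFinite.symm a.1, by
        rw [Finset.mem_finsuppAntidiag]
        exact ⟨a.2, Finset.subset_univ _⟩⟩
      invFun := fun f => ⟨fun i => f.1 i, (Finset.mem_finsuppAntidiag.1 f.2).1⟩
      left_inv := fun a => rfl
      right_inv := fun f => by
        apply Subtype.ext
        ext i
        rfl }
  rw [← Nat.card_coe_set_eq, Nat.card_congr e, Nat.card_eq_fintype_card, Fintype.card_coe,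
    Finset.card_finsuppAntidiag_nat_eq_choose, Finset.card_univ, Fintype.card_fin]
  congr 1
  omega

/-- for `1 ≤ r ≤ (m + d).choose d` there is exactly one `r`-th exponent vector -/
theorem existsUnique_rth (d m r : ℕ) (hr : 1 ≤ r) (hr' : r ≤ (m + d).choose d) :
    ∃! ν : Fin (m + 1) → ℕ, ∑ i, ν i = d ∧
      Nat.card {a : Fin (m + 1) → ℕ // ∑ i, a i = d ∧ toLex ν ≤ toLex a} = r := by
  classical
  have hU : ∀ ν : Fin (m + 1) → ℕ, {a : Fin (m + 1) → ℕ | ∑ i, a i = d ∧ toLex ν ≤ toLex a}.Finite :=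
    fun ν => (Lam_finite d m).subset fun a ha => ha.1
  let rk : (Fin (m + 1) → ℕ) → ℕ := fun ν =>
    {a : Fin (m + 1) → ℕ | ∑ i, a i = d ∧ toLex ν ≤ toLex a}.ncard
  have hrk : ∀ ν, Nat.card {a : Fin (m + 1) → ℕ // ∑ i, a i = d ∧ toLex ν ≤ toLex a} = rk ν :=
    fun ν => Nat.card_coe_set_eq _
  have hlt : ∀ ν ∈ Lam d m, ∀ μ ∈ Lam d m, toLex ν < toLex μ → rk μ < rk ν := by
    intro ν hν μ hμ h
    refine Set.ncard_lt_ncard ?_ (hU ν)
    refine ⟨fun a ha => ⟨ha.1, h.le.trans ha.2⟩, fun hsub => ?_⟩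
    have h1 : ν ∈ {a : Fin (m + 1) → ℕ | ∑ i, a i = d ∧ toLex μ ≤ toLex a} :=
      hsub ⟨hν, le_rfl⟩
    exact absurd h1.2 (not_le.2 h)
  have hinj : Set.InjOn rk (Lam d m) := by
    intro ν hν μ hμ h
    rcases lt_trichotomy (toLex ν) (toLex μ) with h1 | h1 | h1
    · exact absurd h (hlt ν hν μ hμ h1).ne'
    · exact toLex.injective h1
    · exact absurd h (hlt μ hμ ν hν h1).ne
  have himg : rk '' (Lam d m) = Set.Icc 1 ((m + d).choose d) := by
    refine Set.eq_of_subset_of_ncard_le ?_ ?_ (Set.finite_Icc _ _)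
    · rintro _ ⟨ν, hν, rfl⟩
      constructor
      · rw [Nat.one_le_iff_ne_zero]
        intro h0
        rw [Set.ncard_eq_zero (hU ν)] at h0
        have h1 : ν ∈ {a : Fin (m + 1) → ℕ | ∑ i, a i = d ∧ toLex ν ≤ toLex a} := ⟨hν, le_rfl⟩
        rw [h0] at h1
        exact h1
      · rw [← card_Lam]
        exact Set.ncard_le_ncard (fun a ha => ha.1) (Lam_finite d m)
    · rw [hinj.ncard_image, card_Lam]
      have : (Set.Icc 1 ((m + d).choose d)) = ((Finset.Icc 1 ((m + d).choose d) : Finset ℕ) : Set ℕ) := by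
        simp
      rw [this, Set.ncard_coe_finset, Nat.card_Icc]
      omega
  obtain ⟨ν, hν, hνr⟩ : r ∈ rk '' (Lam d m) := by
    rw [himg]
    exact ⟨hr, hr'⟩
  refine ⟨ν, ⟨hν, by rw [hrk, hνr]⟩, ?_⟩
  rintro μ ⟨hμ1, hμ2⟩
  rw [hrk] at hμ2
  exact hinj hμ1 hν (hμ2.trans hνr.symm)

end Pool.Agent.H294R3
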